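import Pool.Agent.ANO3.Conn.Final
import Pool.Agent.ANO3.Sys.CptSet
import Pool.Agent.ANO2.Dim.RankConst

/-!
# ANO3, module Conn: connections and the model (application of `no_conn`)

`meet`: section 7 of `/team-store/ANO3_Blueprint.md`.  If `NN F T w' w''` is not empty (`w'`, `w''`
regular) then all the model leaves `du (w' i) = 0`, `ds (w'' i) = 0` meet.
-/

set_option autoImplicit false

open scoped UpperHalfPlane MatrixGroups
open Set Filter Topology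

namespace Pool.Agent.ANO3.Conn

open Pool.Agent.ANO Pool.Agent.ANO2 Pool.Agent.ANO3 Pool.Agent.ANO3.Tree

variable {r : ℕ} {S : Fin r → SurfaceMap}

/-- The first signed distances of the `w i`. -/
noncomputable def aa (F : ∀ i, Flat (S i)) (T : X r 0 ≃ₜ X r 0) (w : Fin r → ℍ) (x : X r 0) :
    A r := fun i => su F T i (w i) x

/-- The second signed distances of the `w i`. -/
noncomputable def bb (F : ∀ i, Flat (S i)) (T : X r 0 ≃ₜ X r 0) (w : Fin r → ℍ) (x : X r 0) :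
    A r := fun i => ss F T i (w i) x

variable {F : ∀ i, Flat (S i)} {T₀ T : X r 0 ≃ₜ X r 0}

theorem norm_aa_le_iff (h : Setting S T₀ T) {w : Fin r → ℍ} (hw : ∀ i, (F i).Reg (w i))
    {x : X r 0} {c : ℝ} (hc : 0 ≤ c) :
    ‖aa F T w x‖ ≤ c ↔ ∀ i, DU F T i (Sum.inl (w i)) (Sum.inr x) ≤ c := by
  rw [pi_norm_le_iff_of_nonneg hc]
  refine forall_congr' fun i => ?_
  rw [Real.norm_eq_abs, aa, abs_su h (hw i)]

theorem norm_bb_le_iff (h : Setting S T₀ T) {w : Fin r → ℍ} (hw : ∀ i, (F i).Reg (w i))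
    {x : X r 0} {c : ℝ} (hc : 0 ≤ c) :
    ‖bb F T w x‖ ≤ c ↔ ∀ i, DS F T i (Sum.inl (w i)) (Sum.inr x) ≤ c := by
  rw [pi_norm_le_iff_of_nonneg hc]
  refine forall_congr' fun i => ?_
  rw [Real.norm_eq_abs, bb, abs_ss h (hw i)]

theorem DU_le_aa (h : Setting S T₀ T) {w : Fin r → ℍ} (hw : ∀ i, (F i).Reg (w i))
    (x : X r 0) (i : Fin r) : DU F T i (Sum.inl (w i)) (Sum.inr x) ≤ ‖aa F T w x‖ :=
  (norm_aa_le_iff h hw (norm_nonneg _)).1 le_rfl i

theorem DS_le_bb (h : Setting S T₀ T) {w : Fin r → ℍ} (hw : ∀ i, (F i).Reg (w i))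
    (x : X r 0) (i : Fin r) : DS F T i (Sum.inl (w i)) (Sum.inr x) ≤ ‖bb F T w x‖ :=
  (norm_bb_le_iff h hw (norm_nonneg _)).1 le_rfl i

theorem aa_eq_zero (h : Setting S T₀ T) {w : Fin r → ℍ} (hw : ∀ i, (F i).Reg (w i))
    {x : X r 0} : aa F T w x = 0 ↔ ∀ i, DU F T i (Sum.inl (w i)) (Sum.inr x) = 0 := by
  rw [funext_iff]
  refine forall_congr' fun i => ?_
  rw [← abs_su h (hw i), abs_eq_zero, aa, Pi.zero_apply]

theorem bb_eq_zero (h : Setting S T₀ T) {w : Fin r → ℍ} (hw : ∀ i, (F i).Reg (w i))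
    {x : X r 0} : bb F T w x = 0 ↔ ∀ i, DS F T i (Sum.inl (w i)) (Sum.inr x) = 0 := by
  rw [funext_iff]
  refine forall_congr' fun i => ?_
  rw [← abs_ss h (hw i), abs_eq_zero, bb, Pi.zero_apply]

theorem mem_NN_iff (h : Setting S T₀ T) {w' w'' : Fin r → ℍ} (hw' : ∀ i, (F i).Reg (w' i))
    (hw'' : ∀ i, (F i).Reg (w'' i)) {x : X r 0} :
    x ∈ NN F T w' w'' ↔ aa F T w' x = 0 ∧ bb F T w'' x = 0 := by
  rw [aa_eq_zero h hw', bb_eq_zero h hw'', ← forall_and]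
  rfl

theorem coe_pow_iterate (Φ : X r 0 ≃ₜ X r 0) (n m : ℕ) (x : X r 0) :
    (Φ ^ n : X r 0 ≃ₜ X r 0)^[m] x = (Φ ^ (n * m) : X r 0 ≃ₜ X r 0) x := by
  induction m with
  | zero => rw [Nat.mul_zero]; rfl
  | succ m ih =>
    rw [Function.iterate_succ_apply', ih, Nat.mul_succ, add_comm, pow_add]
    rfl

variable {Φ : X r 0 ≃ₜ X r 0} {n : ℕ}

theorem exists_RP (hr : 0 < r) (hn : 0 < n) (h : Setting S T₀ (Φ ^ n : X r 0 ≃ₜ X r 0))
    {w : Fin r → ℍ} (hw : ∀ i, (F i).Reg (w i)) {m : ℕ} (hm : 0 < m) {T' : X r 0 ≃ₜ X r 0}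
    {H : Fin r → ℍ ≃ₜ ℍ} (h' : IsLift S (Φ ^ n : X r 0 ≃ₜ X r 0) m T' H)
    (hH : ∀ i, H i (w i) = w i) {q : X r 0}
    (hq : NN F (Φ ^ n : X r 0 ≃ₜ X r 0) w w = {q}) :
    ∃ R : RP (surf S) Φ, R.T = T' ∧ R.a = aa F (Φ ^ n : X r 0 ≃ₜ X r 0) w ∧
      R.b = bb F (Φ ^ n : X r 0 ≃ₜ X r 0) w := by
  have : Nonempty (Fin r) := ⟨⟨0, hr⟩⟩
  have hT := fun (i : Fin r) (x : X r 0) => DU_iterate (F := F) h h' (hH i) 1 x
  have hS := fun (i : Fin r) (x : X r 0) => DS_iterate (F := F) h h' (hH i) 1 x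
  choose sa hsa1 hsa2 using fun i : Fin r => sign_su (F := F) h h' (hw i) (hH i)
  choose sb hsb1 hsb2 using fun i : Fin r => sign_ss (F := F) h h' (hw i) (hH i)
  obtain ⟨i₀, hi₀⟩ := Finite.exists_min fun i : Fin r => (F i).l
  have hL : ∀ i, (F i₀).l ≤ (F i).l ^ m := fun i =>
    (hi₀ i).trans (le_self_pow₀ (F i).one_lt.le hm.ne')
  have hL1 := (F i₀).one_lt
  have hL0 : 0 < (F i₀).l := lt_trans one_pos hL1
  have hqN : q ∈ NN F (Φ ^ n : X r 0 ≃ₜ X r 0) w w := by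
    rw [hq]
    exact mem_singleton q
  have hfix : T' q = q := by
    have h1 := (mem_NN_lift h h' w w q).2 hqN
    simp only [hH] at h1
    rw [hq] at h1
    exact h1
  obtain ⟨γ, v, hγ, hg, -⟩ := id h'
  refine ⟨{ M := n * m
            M_pos := Nat.mul_pos hn hm
            g := dk γ v
            deck := isDeck_dk hγ v
            T := T'
            T_eq := fun p => by rw [hg, coe_pow_iterate]
            q := q
            fix := hfix
            a := aa F (Φ ^ n : X r 0 ≃ₜ X r 0) w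
            b := bb F (Φ ^ n : X r 0 ≃ₜ X r 0) w
            cont_a := continuous_pi fun i => continuous_su h (hw i)
            cont_b := continuous_pi fun i => continuous_ss h (hw i)
            sa := sa
            sb := sb
            sa_one := hsa1
            sb_one := hsb1
            L := (F i₀).l
            one_lt := hL1
            grow_a := fun x => ?_
            grow_b := fun x => ?_
            scale_a := fun x i => hsa2 i x
            scale_b := fun x i => hsb2 i x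
            uniq := fun x h1 h2 => ?_
            bdd_a := fun x h1 => ?_
            bdd_b := fun x h1 => ?_ }, rfl, rfl, rfl⟩
  · rw [← le_div_iff₀' hL0]
    refine (norm_aa_le_iff h hw (by positivity)).2 fun i => ?_
    rw [le_div_iff₀' hL0]
    refine le_trans ?_ (DU_le_aa h hw (T' x) i)
    refine le_trans ?_ (hT i x)
    rw [Nat.mul_one]
    exact mul_le_mul_of_nonneg_right (hL i) ((isTree_DU h i).nonneg _ _)
  · rw [← le_div_iff₀' hL0]
    refine (norm_bb_le_iff h hw (by positivity)).2 fun i => ?_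
    rw [le_div_iff₀' hL0]
    refine le_trans ?_ (DS_le_bb h hw x i)
    refine le_trans ?_ (hS i x)
    rw [Nat.mul_one]
    exact mul_le_mul_of_nonneg_right (hL i) ((isTree_DS h i).nonneg _ _)
  · have h3 : x ∈ NN F (Φ ^ n : X r 0 ≃ₜ X r 0) w w := (mem_NN_iff h hw hw).2 ⟨h1, h2⟩
    rw [hq] at h3
    exact h3
  · rw [aa_eq_zero h hw] at h1
    choose K hK hK' using fun i : Fin r => orbit_u (F := F) h h' (hw i) (hH i)
      (DS F (Φ ^ n : X r 0 ≃ₜ X r 0) i (Sum.inl (w i)) (Sum.inr x))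
    exact ⟨{y | ∀ i, y.1 i ∈ K i}, isCompact_box hK, fun j i => hK' i x (h1 i) le_rfl j⟩
  · rw [bb_eq_zero h hw] at h1
    choose K hK hK' using fun i : Fin r => orbit_s (F := F) h h' (hw i) (hH i)
      (DU F (Φ ^ n : X r 0 ≃ₜ X r 0) i (Sum.inl (w i)) (Sum.inr x))
    exact ⟨{y | ∀ i, y.1 i ∈ K i}, isCompact_box hK, fun j i => hK' i x (h1 i) le_rfl j⟩

theorem cross_of_lift (h : Setting S T₀ (Φ ^ n : X r 0 ≃ₜ X r 0)) {w' w'' : Fin r → ℍ}
    (hw' : ∀ i, (F i).Reg (w' i)) (hw'' : ∀ i, (F i).Reg (w'' i)) {m' m'' : ℕ}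
    {T' T'' : X r 0 ≃ₜ X r 0} {H' H'' : Fin r → ℍ ≃ₜ ℍ}
    (h' : IsLift S (Φ ^ n : X r 0 ≃ₜ X r 0) m' T' H')
    (h'' : IsLift S (Φ ^ n : X r 0 ≃ₜ X r 0) m'' T'' H'')
    (hH' : ∀ i, H' i (w' i) = w' i) (hH'' : ∀ i, H'' i (w'' i) = w'' i)
    {R' R'' : RP (surf S) Φ} (hT' : R'.T = T') (hT'' : R''.T = T'')
    (hb : R'.b = bb F (Φ ^ n : X r 0 ≃ₜ X r 0) w')
    (ha : R''.a = aa F (Φ ^ n : X r 0 ≃ₜ X r 0) w'') : Cross R' R'' := by
  obtain ⟨A₀, hA₀⟩ : ∃ A₀ : ℝ, ∀ i, (F i).ds (w' i) (w'' i) ≤ A₀ := by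
    obtain ⟨c, hc⟩ := (Set.finite_range fun i : Fin r => (F i).ds (w' i) (w'' i)).bddAbove
    exact ⟨c, fun i => hc ⟨i, rfl⟩⟩
  obtain ⟨B₀, hB₀⟩ : ∃ B₀ : ℝ, ∀ i, (F i).du (w'' i) (w' i) ≤ B₀ := by
    obtain ⟨c, hc⟩ := (Set.finite_range fun i : Fin r => (F i).du (w'' i) (w' i)).bddAbove
    exact ⟨c, fun i => hc ⟨i, rfl⟩⟩
  have hone : ∀ (i : Fin r) (j : ℕ), (1 : ℝ) ≤ (F i).l ^ j := fun i j =>
    one_le_pow₀ (F i).one_lt.le
  constructor
  · intro K hK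
    have hcont : Continuous (bb F (Φ ^ n : X r 0 ≃ₜ X r 0) w'') :=
      continuous_pi fun i => continuous_ss h (hw'' i)
    obtain ⟨C, hC⟩ := hK.exists_bound_of_continuousOn hcont.continuousOn
    refine ⟨|A₀| + |C|, fun y hy j => ?_⟩
    rw [hb, hT'']
    refine (norm_bb_le_iff h hw' (by positivity)).2 fun i => ?_
    have h1 := (isTree_DS (F := F) h i).triangle (Sum.inl (w' i)) (Sum.inl (w'' i))
      (Sum.inr (T''^[j] y))
    rw [DS_inl] at h1
    have h2 := DS_iterate (F := F) h h'' (hH'' i) j y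
    have h3 := (isTree_DS (F := F) h i).nonneg (Sum.inl (w'' i)) (Sum.inr (T''^[j] y))
    have h4 := (DS_le_bb h hw'' y i).trans (hC y hy)
    have h5 := hA₀ i
    have h6 := le_abs_self A₀
    have h7 := le_abs_self C
    have h8 := mul_le_mul_of_nonneg_right (hone i (m'' * j)) h3
    rw [one_mul] at h8
    linarith
  · intro K hK
    have hcont : Continuous (aa F (Φ ^ n : X r 0 ≃ₜ X r 0) w') :=
      continuous_pi fun i => continuous_su h (hw' i)
    obtain ⟨C, hC⟩ := hK.exists_bound_of_continuousOn hcont.continuousOn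
    refine ⟨|B₀| + |C|, fun y hy j => ?_⟩
    rw [ha]
    have hit : T'^[j] (R'.T.symm^[j] y) = y := by
      rw [← hT']
      exact R'.iter_symm j y
    refine (norm_aa_le_iff h hw'' (by positivity)).2 fun i => ?_
    have h1 := (isTree_DU (F := F) h i).triangle (Sum.inl (w'' i)) (Sum.inl (w' i))
      (Sum.inr (R'.T.symm^[j] y))
    rw [DU_inl] at h1
    have h2 := DU_iterate (F := F) h h' (hH' i) j (R'.T.symm^[j] y)
    rw [hit] at h2
    have h3 := (isTree_DU (F := F) h i).nonneg (Sum.inl (w' i)) (Sum.inr (R'.T.symm^[j] y))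
    have h4 := (DU_le_aa h hw' y i).trans (hC y hy)
    have h5 := hB₀ i
    have h6 := le_abs_self B₀
    have h7 := le_abs_self C
    have h8 := mul_le_mul_of_nonneg_right (hone i (m' * j)) h3
    rw [one_mul] at h8
    linarith

/-- (the total degree of the pair `(w, w)` is `± 1`) -/
def TotSelf (F : ∀ i, Flat (S i)) (T : X r 0 ≃ₜ X r 0) : Prop :=
  ∀ (u s : ℕ) (C₀ : E r 0 ≃L[ℝ] (Fin u → ℝ) × (Fin s → ℝ))
    (Θ : (A r × A r) ≃L[ℝ] (Fin u → ℝ) × (Fin s → ℝ)) (w : Fin r → ℍ),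
    (∀ i, (F i).Reg (w i)) → Total C₀ (fun x => Θ (aa F T w x, bb F T w x)) 1

/-- (the total degree of the pair `(w', w'')` is zero if the leaves in one of the surfaces do not
meet) -/
def TotZero (F : ∀ i, Flat (S i)) (T : X r 0 ≃ₜ X r 0) : Prop :=
  ∀ (u s : ℕ) (C₀ : E r 0 ≃L[ℝ] (Fin u → ℝ) × (Fin s → ℝ))
    (Θ : (A r × A r) ≃L[ℝ] (Fin u → ℝ) × (Fin s → ℝ)) (w' w'' : Fin r → ℍ),
    (∀ i, (F i).Reg (w' i)) → (∀ i, (F i).Reg (w'' i)) →
    (∃ i, ∀ z, ¬ ((F i).du (w' i) z = 0 ∧ (F i).ds (w'' i) z = 0)) →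
      Total C₀ (fun x => Θ (aa F T w' x, bb F T w'' x)) 0

/-- If there is a connection then the leaves in all the surfaces meet. -/
theorem meet (hr : 0 < r) (hn : 0 < n) (h : Setting S T₀ (Φ ^ n : X r 0 ≃ₜ X r 0))
    (hA : IsAnosovLift (surf S) Φ)
    (hN : ∀ w : Fin r → ℍ, (∀ i, (F i).Reg (w i)) →
      ∃ q, NN F (Φ ^ n : X r 0 ≃ₜ X r 0) w w = {q})
    (h1 : TotSelf F (Φ ^ n : X r 0 ≃ₜ X r 0)) (h0 : TotZero F (Φ ^ n : X r 0 ≃ₜ X r 0))
    {w' w'' : Fin r → ℍ} (hw' : ∀ i, (F i).Reg (w' i)) (hw'' : ∀ i, (F i).Reg (w'' i))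
    (hne : (NN F (Φ ^ n : X r 0 ≃ₜ X r 0) w' w'').Nonempty) (i : Fin r) :
    ∃ z, (F i).du (w' i) z = 0 ∧ (F i).ds (w'' i) z = 0 := by
  by_contra hcon
  push Not at hcon
  obtain ⟨x, hx⟩ := hne
  obtain ⟨H⟩ := exists_hyp hA
  obtain ⟨s, u, hsu, hrank⟩ := ANO2.Dim.rank_const H.cont H.proj
  obtain ⟨m, T', T'', H', H'', hm, h', h'', hH', hH''⟩ := exists_lift₂ (F := F) h
    (w := w') (w' := w'') (fun i => Or.inl (hw' i)) (fun i => Or.inl (hw'' i))
  obtain ⟨q', hq'⟩ := hN w' hw'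
  obtain ⟨q'', hq''⟩ := hN w'' hw''
  have e' : ∀ i, H' i (w' i) = w' i := fun i => (hH' i).2 (hw' i)
  have e'' : ∀ i, H'' i (w'' i) = w'' i := fun i => (hH'' i).2 (hw'' i)
  obtain ⟨R', t', a', b'⟩ := exists_RP hr hn h hw' hm h' e' hq'
  obtain ⟨R'', t'', a'', b''⟩ := exists_RP hr hn h hw'' hm h'' e'' hq''
  have hcr := cross_of_lift h hw' hw'' h' h'' e' e'' t' t'' b' a''
  have fE : Module.finrank ℝ (E r 0) = Module.finrank ℝ ((Fin u → ℝ) × (Fin s → ℝ)) := by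
    rw [ANO2.Dim.finrank_E, Module.finrank_prod, Module.finrank_fintype_fun_eq_card,
      Module.finrank_fintype_fun_eq_card, Fintype.card_fin, Fintype.card_fin]
    omega
  have fA : Module.finrank ℝ (A r × A r) = Module.finrank ℝ ((Fin u → ℝ) × (Fin s → ℝ)) := by
    rw [Module.finrank_prod, Module.finrank_prod, Module.finrank_fintype_fun_eq_card,
      Module.finrank_fintype_fun_eq_card, Module.finrank_fintype_fun_eq_card, Fintype.card_fin,
      Fintype.card_fin, Fintype.card_fin]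
    omega
  have : Nontrivial ((Fin u → ℝ) × (Fin s → ℝ)) := by
    refine Module.nontrivial_of_finrank_pos (R := ℝ) ?_
    rw [← fE, ANO2.Dim.finrank_E]
    omega
  have C₀ : E r 0 ≃L[ℝ] (Fin u → ℝ) × (Fin s → ℝ) := ContinuousLinearEquiv.ofFinrankEq fE
  have Θ : (A r × A r) ≃L[ℝ] (Fin u → ℝ) × (Fin s → ℝ) := ContinuousLinearEquiv.ofFinrankEq fA
  refine no_conn hr H R' R'' (E₁ := Fin u → ℝ) (E₂ := Fin s → ℝ) ?_ ?_ hcr C₀ Θ ?_ ?_ ?_ x ?_
  · intro p
    have h2 := (hrank p).1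
    have h3 := LinearMap.finrank_range_add_finrank_ker (H.P p).toLinearMap
    rw [ANO2.Dim.finrank_E, h2] at h3
    rw [Module.finrank_fintype_fun_eq_card, Fintype.card_fin]
    omega
  · intro p
    rw [Module.finrank_fintype_fun_eq_card, Fintype.card_fin]
    exact (hrank p).1
  · rw [a', b']
    exact h1 u s C₀ Θ w' hw'
  · rw [a'', b'']
    exact h1 u s C₀ Θ w'' hw''
  · rw [a', b'']
    exact h0 u s C₀ Θ w' w'' hw' hw'' ⟨i, fun z hz => hcon z hz.1 hz.2⟩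
  · rw [a', b'']
    exact (mem_NN_iff h hw' hw'').1 hx

end Pool.Agent.ANO3.Conn
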