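import Pool.Agent.ANO3.Conn.Defs

/-!
# ANO3, module Conn: existence of charts (package CONN-CHART)

`pow`: for `j > 0` the power `T ^ j` of a regular point is a regular point with the same `q`, `a`,
`b`: `(g ∘ F ^ M)^[j] = g' ∘ F ^ (M * j)` with a deck transformation `g'`
(`ANO2.Idx.exists_deck_pow`, `IsAnosovLift` contains the normality), `sa`, `sb` are replaced by
`sa ^ j`, `sb ^ j` (`RP.a_iter`, `RP.b_iter`), `L` stays (`L ≤ L ^ j`, `RP.norm_a_iter`), the bounded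
orbits of `T ^ j` are contained in those of `T`.

`exists_chart`: by `ANO2.Idx.anosov_lift` and uniqueness of nothing: the estimates of `H` give, at
the fixed point `q` of `T = g ∘ F ^ M`, constants `c`, `μ < 1` with `‖A₀ ^ n v‖ ≤ c μ ^ n ‖v‖` if
`P q v = 0` and `‖v‖ ≤ c μ ^ n ‖A₀ ^ n v‖` if `P q v = v`, where `A₀ = tmap T q`
(as in the proof of `ANO2.Idx.anosov_lift`, with `H.P`, `H.est`; that theorem starts with
`IsAnosovLift` and produces some `P`; its proof can be copied for `H.P`). Choose a linear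
isomorphism of the range of `P q` (dimension `dim E₁`) with `E₁` and of the kernel of `P q`
(dimension `dim E₂`) with `E₂` (`ContinuousLinearEquiv.ofFinrankEq`), and
`C v = (iso (P q v), iso (v - P q v))`. There are constants with
`‖(C v).1‖ ≤ c' ‖P q v‖ ≤ c'' ‖(C v).1‖`, `‖(C v).2‖ ≤ c' ‖v - P q v‖ ≤ c'' ‖(C v).2‖`.
`P q` commutes with `A₀`. So for a large power `j` the conditions `step_u`, `step_s` hold for
`A₀ ^ j = tmap (T ^ j) q` (`ANO.Idx.tmap_iterate`).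
-/

set_option autoImplicit false

open Set Filter Topology

namespace Pool.Agent.ANO3.Conn

open Pool.Agent.ANO Pool.Agent.ANO2

variable {r k : ℕ} {S : Fin r → ClosedSurface} {F : X r k ≃ₜ X r k}
variable {E₁ E₂ : Type} [NormedAddCommGroup E₁] [NormedSpace ℝ E₁]
  [NormedAddCommGroup E₂] [NormedSpace ℝ E₂]

private theorem coe_pow_ChartX (T : X r k ≃ₜ X r k) (j : ℕ) :
    ((T ^ j : X r k ≃ₜ X r k) : X r k → X r k) = T^[j] := by
  induction j with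
  | zero =>
    rw [pow_zero]
    rfl
  | succ j ih =>
    rw [Function.iterate_succ', ← ih, pow_succ']
    rfl

private theorem coe_pow_symm_ChartX (T : X r k ≃ₜ X r k) (j : ℕ) :
    ((T ^ j : X r k ≃ₜ X r k).symm : X r k → X r k) = T.symm^[j] := by
  have h : (T ^ j : X r k ≃ₜ X r k).symm = (T.symm ^ j : X r k ≃ₜ X r k) := (inv_pow T j).symm
  rw [h, coe_pow_ChartX]

private theorem sgn_pow_ChartX {s : ℝ} (h : s = 1 ∨ s = -1) (j : ℕ) : s ^ j = 1 ∨ s ^ j = -1 := by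
  rcases h with h | h
  · left
    rw [h, one_pow]
  · rw [h]
    exact neg_one_pow_eq_or ℝ j

theorem RP.exists_pow (H : Hyp S F) (R : RP S F) {j : ℕ} (hj : 0 < j) :
    ∃ R' : RP S F, R'.q = R.q ∧ R'.a = R.a ∧ R'.b = R.b ∧ ∀ x, R'.T x = R.T^[j] x := by
  obtain ⟨g', hg', h1⟩ := Pool.Agent.ANO2.Idx.exists_deck_pow H.lift.2.2.1 R.M R.deck j
  have hT : (R.T : X r k → X r k) = R.g ∘ (F ^ R.M : X r k ≃ₜ X r k) := funext R.T_eq
  have hTj : (R.T ^ j : X r k ≃ₜ X r k) = R.T^[j] := coe_pow_ChartX R.T j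
  refine ⟨{
    M := R.M * j
    M_pos := Nat.mul_pos R.M_pos hj
    g := g'
    deck := hg'
    T := R.T ^ j
    T_eq := fun p => ?_
    q := R.q
    fix := ?_
    a := R.a
    b := R.b
    cont_a := R.cont_a
    cont_b := R.cont_b
    sa := fun i => R.sa i ^ j
    sb := fun i => R.sb i ^ j
    sa_one := fun i => sgn_pow_ChartX (R.sa_one i) j
    sb_one := fun i => sgn_pow_ChartX (R.sb_one i) j
    L := R.L ^ j
    one_lt := one_lt_pow₀ R.one_lt hj.ne'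
    grow_a := fun x => ?_
    grow_b := fun x => ?_
    scale_a := fun x i => ?_
    scale_b := fun x i => ?_
    uniq := R.uniq
    bdd_a := fun x hx => ?_
    bdd_b := fun x hx => ?_ }, rfl, rfl, rfl, fun x => congrFun hTj x⟩
  · rw [hTj, hT, h1]
    rfl
  · rw [hTj]
    exact Function.iterate_fixed R.fix j
  · rw [hTj]
    exact R.norm_a_iter j x
  · rw [hTj]
    exact R.norm_b_iter j x
  · rw [hTj]
    exact R.a_iter j x i
  · rw [hTj]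
    exact R.b_iter j x i
  · obtain ⟨K, hK, h2⟩ := R.bdd_a x hx
    refine ⟨K, hK, fun n => ?_⟩
    rw [hTj, ← Function.iterate_mul]
    exact h2 _
  · obtain ⟨K, hK, h2⟩ := R.bdd_b x hx
    refine ⟨K, hK, fun n => ?_⟩
    rw [coe_pow_symm_ChartX, ← Function.iterate_mul]
    exact h2 _

private theorem tmap_T_ChartX (H : Hyp S F) (M : ℕ) {g : X r k → X r k}
    (hg : IsDeck S k g) (p : X r k) : tmap (g ∘ (F ^ M : X r k ≃ₜ X r k)) p =
      tmap g ((F ^ M : X r k ≃ₜ X r k) p) ∘L tmap (F ^ M : X r k ≃ₜ X r k) p :=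
  ANO.Idx.tmap_comp (ANO2.Idx.deck_contDiffOn hg) (ANO.Idx.contDiffOn_pow H.lift.1 M) p

/-- the estimates at the fixed point -/
private theorem est_ChartX (H : Hyp S F) (R : RP S F) :
    (H.P R.q) ∘L tmap R.T R.q = tmap R.T R.q ∘L H.P R.q ∧
    (∀ n : ℕ, tmap (R.T^[n]) R.q = tmap R.T R.q ^ n) ∧
    ∃ C μ : ℝ, 0 < C ∧ 0 < μ ∧ μ < 1 ∧ ∀ (n : ℕ) (v : E r k),
        (H.P R.q v = 0 → ‖(tmap R.T R.q ^ n) v‖ ≤ C * μ ^ n * ‖v‖) ∧
        (H.P R.q v = v → ‖v‖ ≤ C * μ ^ n * ‖(tmap R.T R.q ^ n) v‖) := by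
  have hTe : (R.T : X r k → X r k) = R.g ∘ (F ^ R.M : X r k ≃ₜ X r k) := funext R.T_eq
  have hfix : R.g ((F ^ R.M : X r k ≃ₜ X r k) R.q) = R.q := by
    rw [← R.T_eq]
    exact R.fix
  set M := R.M with hMdef
  set g := R.g with hgdef
  set q := R.q with hqdef
  have hg : IsDeck S k g := R.deck
  have hM : 0 < M := R.M_pos
  have hT := ANO2.Idx.contDiffOn_T H.lift M hg
  have hq : (g ∘ (F ^ M : X r k ≃ₜ X r k)) q = q := hfix
  have h1 := H.lift.1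
  have h2 := H.lift.2.1
  have hN := H.lift.2.2.1
  rw [hTe]
  refine ⟨?_, fun n => ANO.Idx.tmap_iterate hT hq n, ?_⟩
  · have h3 : H.P (g ((F ^ M : X r k ≃ₜ X r k) q)) ∘L tmap (g ∘ (F ^ M : X r k ≃ₜ X r k)) q =
        tmap (g ∘ (F ^ M : X r k ≃ₜ X r k)) q ∘L H.P q := by
      rw [tmap_T_ChartX H M hg, ← ContinuousLinearMap.comp_assoc, H.deck g hg,
        ContinuousLinearMap.comp_assoc, ANO2.Idx.pow_inv h1 H.comm M q,
        ContinuousLinearMap.comp_assoc]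
    rw [hfix] at h3
    exact h3
  · obtain ⟨a, b, ha, hb, hab⟩ := ANO2.Idx.tnorm_equiv q
    have hC := H.C_pos
    have hμ := H.μ_pos
    have hμ1 := H.μ_lt
    refine ⟨H.C * b / a, H.μ, by positivity, hμ, hμ1, fun n v => ?_⟩
    obtain ⟨g', hg', h3⟩ := ANO2.Idx.exists_deck_pow hN M hg n
    set w : E r k := tmap (F ^ (M * n) : X r k ≃ₜ X r k) q v with hw
    have h4 : (tmap (g ∘ (F ^ M : X r k ≃ₜ X r k)) q ^ n) v =
        tmap g' ((F ^ (M * n) : X r k ≃ₜ X r k) q) w := by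
      rw [← ANO.Idx.tmap_iterate hT hq n, h3, tmap_T_ChartX H (M * n) hg']
      rfl
    have h5 : g' ((F ^ (M * n) : X r k ≃ₜ X r k) q) = q := by
      have h6 := congrFun h3 q
      rw [Function.iterate_fixed hq] at h6
      exact h6.symm
    have h6 : tnorm q ((tmap (g ∘ (F ^ M : X r k ≃ₜ X r k)) q ^ n) v) =
        tnorm ((F ^ (M * n) : X r k ≃ₜ X r k) q) w := by
      have h7 := ANO2.Idx.deck_tnorm hg' ((F ^ (M * n) : X r k ≃ₜ X r k) q) w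
      rw [h5, ← h4] at h7
      exact h7
    have hμn : H.μ ^ (M * n) ≤ H.μ ^ n :=
      pow_le_pow_of_le_one hμ.le hμ1.le (Nat.le_mul_of_pos_left n hM)
    have hμp : 0 < H.μ ^ n := pow_pos hμ n
    have hμq : 0 < H.μ ^ (M * n) := pow_pos hμ (M * n)
    have hv := hab v
    have hA := hab ((tmap (g ∘ (F ^ M : X r k ≃ₜ X r k)) q ^ n) v)
    set y : E r k := (tmap (g ∘ (F ^ M : X r k ≃ₜ X r k)) q ^ n) v with hy
    have key : ∀ s u : ℝ, 0 ≤ u → a * s ≤ H.C * H.μ ^ (M * n) * (b * u) →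
        s ≤ H.C * b / a * H.μ ^ n * u := by
      intro s u hu h
      have h8 : H.C * b / a * H.μ ^ n * u = H.C * H.μ ^ n * (b * u) / a := by
        field_simp
      rw [h8, le_div_iff₀ ha, mul_comm s a]
      refine h.trans ?_
      have h9 : 0 ≤ b * u := by positivity
      exact mul_le_mul_of_nonneg_right (mul_le_mul_of_nonneg_left hμn hC.le) h9
    have hc0 : 0 ≤ H.C * H.μ ^ (M * n) := by positivity
    refine ⟨fun h0 => ?_, fun h0 => ?_⟩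
    · refine key _ _ (norm_nonneg v) ?_
      have h8 := (H.est (M * n) q v).1 h0
      calc a * ‖y‖ ≤ tnorm q y := hA.1
        _ = tnorm ((F ^ (M * n) : X r k ≃ₜ X r k) q) w := h6
        _ ≤ H.C * H.μ ^ (M * n) * tnorm q v := h8
        _ ≤ H.C * H.μ ^ (M * n) * (b * ‖v‖) := mul_le_mul_of_nonneg_left hv.2 hc0
    · refine key _ _ (norm_nonneg y) ?_
      have h8 := ANO2.Idx.unstable_pow h1 h2 H.comm (c := H.C * H.μ ^ (M * n)) (n := M * n)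
        (p := q)
        (fun v' hv' => (H.est (M * n) ((F ^ (M * n) : X r k ≃ₜ X r k) q) v').2 hv') h0
      calc a * ‖v‖ ≤ tnorm q v := hv.1
        _ ≤ H.C * H.μ ^ (M * n) * tnorm ((F ^ (M * n) : X r k ≃ₜ X r k) q) w := h8
        _ = H.C * H.μ ^ (M * n) * tnorm q y := by rw [h6]
        _ ≤ H.C * H.μ ^ (M * n) * (b * ‖y‖) := mul_le_mul_of_nonneg_left hA.2 hc0

theorem exists_chart [FiniteDimensional ℝ E₁] [FiniteDimensional ℝ E₂] (H : Hyp S F)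
    (R : RP S F)
    (hu : Module.finrank ℝ (LinearMap.range (H.P R.q : E r k →ₗ[ℝ] E r k)) =
      Module.finrank ℝ E₁)
    (hs : Module.finrank ℝ (LinearMap.ker (H.P R.q : E r k →ₗ[ℝ] E r k)) =
      Module.finrank ℝ E₂) :
    ∃ R' : RP S F, R'.q = R.q ∧ R'.a = R.a ∧ R'.b = R.b ∧
      (∃ j : ℕ, 0 < j ∧ ∀ x, R'.T x = R.T^[j] x) ∧ Nonempty (Chart E₁ E₂ H R') := by
  obtain ⟨hcomm, hiter, c, μ, hc, hμ, hμ1, hest⟩ := est_ChartX H R
  set A := tmap R.T R.q with hA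
  set P := H.P R.q with hP
  have hPP : ∀ v, P (P v) = P v := fun v =>
    congrArg (fun L : E r k →L[ℝ] E r k => L v) (H.proj R.q)
  set Rg := LinearMap.range (P : E r k →ₗ[ℝ] E r k) with hRg
  set Kr := LinearMap.ker (P : E r k →ₗ[ℝ] E r k) with hKr
  let e₁ : Rg ≃L[ℝ] E₁ := ContinuousLinearEquiv.ofFinrankEq hu
  let e₂ : Kr ≃L[ℝ] E₂ := ContinuousLinearEquiv.ofFinrankEq hs
  have hPR : ∀ w : Rg, P (w : E r k) = w := by
    rintro ⟨w, v, rfl⟩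
    exact hPP v
  have hPK : ∀ w : Kr, P (w : E r k) = 0 := fun w => LinearMap.mem_ker.1 w.2
  have hmR : ∀ v, P v ∈ Rg := fun v => ⟨v, rfl⟩
  have hmK : ∀ v, v - P v ∈ Kr := fun v => by
    rw [hKr, LinearMap.mem_ker]
    change P (v - P v) = 0
    rw [map_sub, hPP, sub_self]
  let π₁ : E r k →ₗ[ℝ] Rg := (P : E r k →ₗ[ℝ] E r k).codRestrict Rg hmR
  let π₂ : E r k →ₗ[ℝ] Kr :=
    (LinearMap.id - (P : E r k →ₗ[ℝ] E r k)).codRestrict Kr hmK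
  have hπ₁ : ∀ v, ((π₁ v : Rg) : E r k) = P v := fun v => rfl
  have hπ₂ : ∀ v, ((π₂ v : Kr) : E r k) = v - P v := fun v => rfl
  let f : E r k →ₗ[ℝ] E₁ × E₂ :=
    ((e₁ : Rg →ₗ[ℝ] E₁) ∘ₗ π₁).prod ((e₂ : Kr →ₗ[ℝ] E₂) ∘ₗ π₂)
  have hf : ∀ v, f v = (e₁ (π₁ v), e₂ (π₂ v)) := fun v => rfl
  let gi : E₁ × E₂ →ₗ[ℝ] E r k :=
    (Rg.subtype ∘ₗ (e₁.symm : E₁ →ₗ[ℝ] Rg)).coprod (Kr.subtype ∘ₗ (e₂.symm : E₂ →ₗ[ℝ] Kr))
  have hgi : ∀ z : E₁ × E₂, gi z = ((e₁.symm z.1 : Rg) : E r k) + ((e₂.symm z.2 : Kr) : E r k) :=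
    fun z => rfl
  have hfg : f ∘ₗ gi = LinearMap.id := by
    refine LinearMap.ext fun z => ?_
    have h1 : π₁ (gi z) = e₁.symm z.1 := by
      apply Subtype.ext
      rw [hπ₁, hgi, map_add, hPR, hPK, add_zero]
    have h2 : π₂ (gi z) = e₂.symm z.2 := by
      apply Subtype.ext
      rw [hπ₂, hgi, map_add, hPR, hPK, add_zero, add_sub_cancel_left]
    change f (gi z) = z
    rw [hf, h1, h2, ContinuousLinearEquiv.apply_symm_apply,
      ContinuousLinearEquiv.apply_symm_apply]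
  have hgf : gi ∘ₗ f = LinearMap.id := by
    refine LinearMap.ext fun v => ?_
    change gi (f v) = v
    rw [hf, hgi]
    change ((e₁.symm (e₁ (π₁ v)) : Rg) : E r k) + ((e₂.symm (e₂ (π₂ v)) : Kr) : E r k) = v
    rw [ContinuousLinearEquiv.symm_apply_apply, ContinuousLinearEquiv.symm_apply_apply, hπ₁, hπ₂,
      add_sub_cancel]
  let C : E r k ≃L[ℝ] E₁ × E₂ := (LinearEquiv.ofLinearMap f gi hfg hgf).toContinuousLinearEquiv
  have hC : ∀ v, C v = (e₁ (π₁ v), e₂ (π₂ v)) := fun v => hf v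
  -- constants
  have n1 : ∀ w : Rg, ‖e₁ w‖ ≤ ‖(e₁ : Rg →L[ℝ] E₁)‖ * ‖w‖ := fun w =>
    (e₁ : Rg →L[ℝ] E₁).le_opNorm w
  have n2 : ∀ w : Rg, ‖w‖ ≤ ‖(e₁.symm : E₁ →L[ℝ] Rg)‖ * ‖e₁ w‖ := fun w => by
    have := (e₁.symm : E₁ →L[ℝ] Rg).le_opNorm (e₁ w)
    simpa using this
  have n3 : ∀ w : Kr, ‖e₂ w‖ ≤ ‖(e₂ : Kr →L[ℝ] E₂)‖ * ‖w‖ := fun w =>
    (e₂ : Kr →L[ℝ] E₂).le_opNorm w
  have n4 : ∀ w : Kr, ‖w‖ ≤ ‖(e₂.symm : E₂ →L[ℝ] Kr)‖ * ‖e₂ w‖ := fun w => by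
    have := (e₂.symm : E₂ →L[ℝ] Kr).le_opNorm (e₂ w)
    simpa using this
  set k1 := ‖(e₁ : Rg →L[ℝ] E₁)‖ with hk1
  set k2 := ‖(e₁.symm : E₁ →L[ℝ] Rg)‖ with hk2
  set k3 := ‖(e₂ : Kr →L[ℝ] E₂)‖ with hk3
  set k4 := ‖(e₂.symm : E₂ →L[ℝ] Kr)‖ with hk4
  have p1 : 0 ≤ k1 := by
    rw [hk1]
    positivity
  have p2 : 0 ≤ k2 := by
    rw [hk2]
    positivity
  have p3 : 0 ≤ k3 := by
    rw [hk3]
    positivity
  have p4 : 0 ≤ k4 := by
    rw [hk4]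
    positivity
  obtain ⟨j, hj, hj1, hj2⟩ : ∃ j : ℕ, 0 < j ∧ 8 * k1 * k2 * (c * μ ^ j) ≤ 1 ∧
      8 * k3 * k4 * (c * μ ^ j) ≤ 1 := by
    have ht : Tendsto (fun j : ℕ => μ ^ j) atTop (𝓝 0) :=
      tendsto_pow_atTop_nhds_zero_of_lt_one hμ.le hμ1
    have ht1 : Tendsto (fun j : ℕ => 8 * k1 * k2 * (c * μ ^ j)) atTop (𝓝 0) := by
      have := (ht.const_mul c).const_mul (8 * k1 * k2)
      simpa using this
    have ht2 : Tendsto (fun j : ℕ => 8 * k3 * k4 * (c * μ ^ j)) atTop (𝓝 0) := by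
      have := (ht.const_mul c).const_mul (8 * k3 * k4)
      simpa using this
    have e1 := ht1.eventually_le_const (zero_lt_one)
    have e2 := ht2.eventually_le_const (zero_lt_one)
    obtain ⟨j, h1, h2, h3⟩ := ((eventually_gt_atTop 0).and (e1.and e2)).exists
    exact ⟨j, h1, h2, h3⟩
  obtain ⟨R', hq', ha', hb', hT'⟩ := RP.exists_pow H R hj
  refine ⟨R', hq', ha', hb', ⟨j, hj, hT'⟩, ⟨?_⟩⟩
  have hTj : (R'.T : X r k → X r k) = R.T^[j] := funext hT'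
  have hAj : tmap R'.T R'.q = A ^ j := by
    rw [hTj, hq', hiter j]
  have hcj : ∀ v, P ((A ^ j) v) = (A ^ j) (P v) := by
    have h1 : Commute P A := hcomm
    have h2 : P * A ^ j = A ^ j * P := (h1.pow_right j).eq
    intro v
    exact congrArg (fun L : E r k →L[ℝ] E r k => L v) h2
  refine { C := C, hC := fun v => ?_, step_u := fun v => ?_, step_s := fun v => ?_ }
  · rw [hq', hC, hC]
    have h1 : π₁ (P v) = π₁ v := Subtype.ext (by rw [hπ₁, hπ₁, hPP])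
    have h2 : π₂ (P v) = 0 := Subtype.ext (by rw [hπ₂, hPP, sub_self]; rfl)
    change (e₁ (π₁ (P v)), e₂ (π₂ (P v))) = _
    rw [h1, h2, map_zero]
  · rw [hAj, hC, hC]
    change 8 * ‖e₁ (π₁ v)‖ ≤ ‖e₁ (π₁ ((A ^ j) v))‖
    have h1 : ‖(π₁ v : Rg)‖ = ‖P v‖ := rfl
    have h2 : ‖(π₁ ((A ^ j) v) : Rg)‖ = ‖(A ^ j) (P v)‖ := by
      rw [← hcj]
      rfl
    have h3 := (hest j (P v)).2 (hPP v)
    have h4 := n1 (π₁ v)
    have h5 := n2 (π₁ ((A ^ j) v))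
    rw [h1] at h4
    rw [h2] at h5
    have q0 : 0 ≤ ‖e₁ (π₁ ((A ^ j) v))‖ := norm_nonneg _
    have q1 : 0 ≤ c * μ ^ j := by positivity
    calc 8 * ‖e₁ (π₁ v)‖ ≤ 8 * (k1 * ‖P v‖) := by linarith
      _ ≤ 8 * (k1 * (c * μ ^ j * ‖(A ^ j) (P v)‖)) := by gcongr
      _ ≤ 8 * (k1 * (c * μ ^ j * (k2 * ‖e₁ (π₁ ((A ^ j) v))‖))) := by gcongr
      _ = (8 * k1 * k2 * (c * μ ^ j)) * ‖e₁ (π₁ ((A ^ j) v))‖ := by ring
      _ ≤ 1 * ‖e₁ (π₁ ((A ^ j) v))‖ := mul_le_mul_of_nonneg_right hj1 q0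
      _ = _ := one_mul _
  · rw [hAj, hC, hC]
    change 8 * ‖e₂ (π₂ ((A ^ j) v))‖ ≤ ‖e₂ (π₂ v)‖
    have h1 : ‖(π₂ v : Kr)‖ = ‖v - P v‖ := rfl
    have h2 : ‖(π₂ ((A ^ j) v) : Kr)‖ = ‖(A ^ j) (v - P v)‖ := by
      rw [map_sub, ← hcj]
      rfl
    have h3 := (hest j (v - P v)).1 (by rw [map_sub, hPP, sub_self])
    have h4 := n3 (π₂ ((A ^ j) v))
    have h5 := n4 (π₂ v)
    rw [h2] at h4
    rw [h1] at h5
    have q0 : 0 ≤ ‖e₂ (π₂ v)‖ := norm_nonneg _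
    have q1 : 0 ≤ c * μ ^ j := by positivity
    calc 8 * ‖e₂ (π₂ ((A ^ j) v))‖ ≤ 8 * (k3 * ‖(A ^ j) (v - P v)‖) := by linarith
      _ ≤ 8 * (k3 * (c * μ ^ j * ‖v - P v‖)) := by gcongr
      _ ≤ 8 * (k3 * (c * μ ^ j * (k4 * ‖e₂ (π₂ v)‖))) := by gcongr
      _ = (8 * k3 * k4 * (c * μ ^ j)) * ‖e₂ (π₂ v)‖ := by ring
      _ ≤ 1 * ‖e₂ (π₂ v)‖ := mul_le_mul_of_nonneg_right hj2 q0
      _ = _ := one_mul _

end Pool.Agent.ANO3.Conn
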