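import Pool.Agent.ANO3.Conn.Loc

/-!
# ANO3, module Conn: existence of boxes (package CONN-CONE)

`exit`: an abstract statement which is applied to `T`, `a` and to `T.symm`, `b`.  `u`, `s` are the
norms of the two coordinates, `N x = max (u x) (s x)`.  Suppose that there are points `y n ≠ q`,
`N (y n) ≤ 1 / (n + 1)`, `s (y n) ≤ u (y n)`, `α (y n) = 0`. As long as the orbit `T^[j] (y n)`
stays in `{N ≤ ρ₀}` the numbers `u (T^[j] (y n)) ≥ 4 ^ j * u (y n)` grow and `s ≤ u` holds;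
`u (y n) > 0` (otherwise `N (y n) = 0`, `y n = q`). So there is a first `m > 0` with
`z n = T^[m] (y n) ∉ {N ≤ ρ₀}` (`Nat.find`), and `z n ∈ T '' {N ≤ ρ₀}`, a compact set. A cluster
point `z` has `N z ≥ ρ₀`, so `z ≠ q`; `α z = 0` because `α (z n) = 0` (`zeroT`) and `α` is
continuous; `β z = 0` because `β (z n) ≤ β (y n) → β q = 0` (`decT`). By `uniq` `z = q`:
contradiction.

`exists_box`: take `ρ₀` below the numbers of `Chart.ball`, `Chart.est`, `Chart.injPQ` and the two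
numbers `ρ₁` of `exit`, and then `ρ₂` such that `‖c x‖ ≤ ρ₂` implies `‖c (T x)‖ ≤ ρ₁`,
`‖c (T.symm x)‖ ≤ ρ₁` (continuity at `q`, `Chart.basis`). Let `ρ ≤ ρ₂`.
`a_ne`: `‖(c x).2‖ ≤ ρ = ‖(c x).1‖`: `exit`. `a_inv`: if `a x = 0`, `‖c x‖ ≤ ρ` then `x = q` or
`‖(c x).1‖ < ‖(c x).2‖` (`exit`), and the same for `T x` (`a (T x) = A (a x) = 0`,
`‖c (T x)‖ ≤ ρ₁`); so `T x = q` or `‖c (T x)‖ = ‖(c (T x)).2‖ ≤ ‖(c x).2‖ / 4 ≤ ρ / 4`.
(The norm of `E₁ × E₂` is the maximum.) The same for `b`, `T.symm`.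
-/

set_option autoImplicit false

open Set Filter Topology

namespace Pool.Agent.ANO3.Conn

open Pool.Agent.ANO Pool.Agent.ANO2

theorem exit {Y : Type} [TopologicalSpace Y] [FirstCountableTopology Y] [T2Space Y] (T : Y → Y)
    (hT : Continuous T) (q : Y) (u s : Y → ℝ) (hu : Continuous u) (hs : Continuous s)
    (hu0 : ∀ y, 0 ≤ u y) (hs0 : ∀ y, 0 ≤ s y) (hq : ∀ y, u y = 0 → s y = 0 → y = q)
    (hbasis : (𝓝 q).HasBasis (fun ρ : ℝ => 0 < ρ) fun ρ => {y | max (u y) (s y) ≤ ρ})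
    {ρ₀ : ℝ} (hρ₀ : 0 < ρ₀) (hc : IsCompact {y | max (u y) (s y) ≤ ρ₀})
    (hexp : ∀ y, max (u y) (s y) ≤ ρ₀ → s y ≤ u y → 4 * u y ≤ u (T y) ∧ s (T y) ≤ u (T y))
    (α β : Y → ℝ) (hα : Continuous α) (hβ : Continuous β) (zeroT : ∀ y, α y = 0 → α (T y) = 0)
    (decT : ∀ y, |β (T y)| ≤ |β y|) (hβq : β q = 0) (uniq : ∀ y, α y = 0 → β y = 0 → y = q) :
    ∃ ρ₁ > 0, ∀ y, max (u y) (s y) ≤ ρ₁ → y ≠ q → s y ≤ u y → α y ≠ 0 := by
  by_contra hcon
  push Not at hcon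
  have hq0 : ∀ ρ : ℝ, 0 < ρ → max (u q) (s q) ≤ ρ := by
    intro ρ hρ
    have e1 : q ∈ {y | max (u y) (s y) ≤ ρ} := mem_of_mem_nhds (hbasis.mem_of_mem hρ)
    exact e1
  have hex : ∀ n : ℕ, ∃ y w : Y, max (u y) (s y) ≤ 1 / ((n : ℝ) + 1) ∧
      max (u w) (s w) ≤ ρ₀ ∧ ρ₀ < max (u (T w)) (s (T w)) ∧ α (T w) = 0 ∧
      |β (T w)| ≤ |β y| := by
    intro n
    obtain ⟨y, hy1, hy2, hy3, hy4⟩ := hcon (min ρ₀ (1 / ((n : ℝ) + 1)))
      (lt_min hρ₀ (by positivity))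
    have hy5 : max (u y) (s y) ≤ ρ₀ := hy1.trans (min_le_left _ _)
    have huy : 0 < u y := by
      rcases (hu0 y).lt_or_eq with h | h
      · exact h
      · exfalso
        refine hy2 (hq y h.symm ?_)
        rw [← h] at hy3
        exact le_antisymm hy3 (hs0 y)
    have grow : ∀ k : ℕ, (∀ j < k, max (u (T^[j] y)) (s (T^[j] y)) ≤ ρ₀) →
        s (T^[k] y) ≤ u (T^[k] y) ∧ 4 ^ k * u y ≤ u (T^[k] y) := by
      intro k
      induction k with
      | zero =>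
        intro _
        refine ⟨hy3, ?_⟩
        simp
      | succ k ih =>
        intro hk
        obtain ⟨i1, i2⟩ := ih fun j hj => hk j (Nat.lt_succ_of_lt hj)
        obtain ⟨i3, i4⟩ := hexp _ (hk k (Nat.lt_succ_self k)) i1
        rw [Function.iterate_succ_apply']
        refine ⟨i4, ?_⟩
        rw [pow_succ]
        linarith
    have hm : ∃ m : ℕ, ρ₀ < max (u (T^[m] y)) (s (T^[m] y)) := by
      by_contra hno
      push Not at hno
      obtain ⟨k, hk⟩ := pow_unbounded_of_one_lt (ρ₀ / u y) (by norm_num : (1 : ℝ) < 4)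
      rw [div_lt_iff₀ huy] at hk
      have h1 := (grow k fun j _ => hno j).2
      have h2 := (le_max_left (u (T^[k] y)) (s (T^[k] y))).trans (hno k)
      linarith
    classical
    have hm1 := Nat.find_spec hm
    have hm2 : ∀ j < Nat.find hm, max (u (T^[j] y)) (s (T^[j] y)) ≤ ρ₀ := fun j hj =>
      not_lt.1 (Nat.find_min hm hj)
    obtain ⟨m, hmm⟩ : ∃ m, m = Nat.find hm := ⟨_, rfl⟩
    rw [← hmm] at hm1 hm2
    have hzero : ∀ k, α (T^[k] y) = 0 ∧ |β (T^[k] y)| ≤ |β y| := by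
      intro k
      induction k with
      | zero => exact ⟨hy4, le_rfl⟩
      | succ k ih =>
        rw [Function.iterate_succ_apply']
        exact ⟨zeroT _ ih.1, (decT _).trans ih.2⟩
    cases m with
    | zero => exact absurd hm1 (not_lt.2 hy5)
    | succ m =>
      refine ⟨y, T^[m] y, hy1.trans (min_le_right _ _), hm2 m (Nat.lt_succ_self m), ?_, ?_, ?_⟩
      · rw [← Function.iterate_succ_apply' T m y]
        exact hm1
      · rw [← Function.iterate_succ_apply' T m y]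
        exact (hzero (m + 1)).1
      · rw [← Function.iterate_succ_apply' T m y]
        exact (hzero (m + 1)).2
  choose y w h1 h2 h3 h4 h5 using hex
  obtain ⟨w', -, φ, hφ, hw⟩ := hc.tendsto_subseq h2
  have hz : Tendsto (fun n => T (w (φ n))) atTop (𝓝 (T w')) := (hT.tendsto w').comp hw
  have hN : Continuous fun x => max (u x) (s x) := hu.max hs
  have k1 : ρ₀ ≤ max (u (T w')) (s (T w')) :=
    ge_of_tendsto' ((hN.tendsto _).comp hz) fun n => (h3 (φ n)).le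
  have k2 : α (T w') = 0 := by
    have e1 : Tendsto (fun n => α (T (w (φ n)))) atTop (𝓝 (α (T w'))) := (hα.tendsto _).comp hz
    have e2 : (fun n => α (T (w (φ n)))) = fun _ => 0 := funext fun n => h4 (φ n)
    rw [e2] at e1
    exact tendsto_nhds_unique e1 tendsto_const_nhds
  have hy : Tendsto y atTop (𝓝 q) := by
    rw [hbasis.tendsto_right_iff]
    intro ρ hρ
    have e1 : ∀ᶠ n : ℕ in atTop, 1 / ((n : ℝ) + 1) < ρ :=
      (tendsto_order.1 tendsto_one_div_add_atTop_nhds_zero_nat).2 ρ hρ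
    filter_upwards [e1] with n hn
    exact (h1 n).trans hn.le
  have k3 : β (T w') = 0 := by
    have e1 : Tendsto (fun n => |β (T (w (φ n)))|) atTop (𝓝 |β (T w')|) :=
      ((hβ.tendsto _).comp hz).abs
    have e2 : Tendsto (fun n => |β (y (φ n))|) atTop (𝓝 |β q|) :=
      ((hβ.tendsto _).comp (hy.comp hφ.tendsto_atTop)).abs
    have e3 := le_of_tendsto_of_tendsto' e1 e2 fun n => h5 (φ n)
    rw [hβq, abs_zero] at e3
    exact abs_eq_zero.1 (le_antisymm e3 (abs_nonneg _))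
  have k4 := uniq _ k2 k3
  rw [k4] at k1
  have k5 := hq0 (ρ₀ / 2) (by linarith)
  linarith

variable {r k : ℕ} {S : Fin r → ClosedSurface} {F : X r k ≃ₜ X r k}
variable {E₁ E₂ : Type} [NormedAddCommGroup E₁] [NormedSpace ℝ E₁]
  [NormedAddCommGroup E₂] [NormedSpace ℝ E₂] [FiniteDimensional ℝ E₁] [FiniteDimensional ℝ E₂]
variable {H : Hyp S F} {R : RP S F}

theorem exists_box (Ch : Chart E₁ E₂ H R) : ∃ κ : ℝ, 0 < κ ∧ ∃ ρ₀ > 0, ∀ ρ, 0 < ρ → ρ ≤ ρ₀ →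
    Box Ch ρ κ := by
  obtain ⟨ρb, hρb, hball⟩ := Ch.ball
  obtain ⟨ρe, hρe, hest⟩ := Ch.est
  obtain ⟨κ, hκ, ρi, hρi, hinj⟩ := Ch.injPQ
  have hL := R.one_lt
  have hnorm : ∀ x, ‖Ch.c x‖ = max ‖(Ch.c x).1‖ ‖(Ch.c x).2‖ := fun x => rfl
  have hq0 : ∀ y, ‖(Ch.c y).1‖ = 0 → ‖(Ch.c y).2‖ = 0 → y = R.q := by
    intro y e1 e2
    refine Ch.inj ?_
    rw [Ch.c_q]
    exact Prod.ext (norm_eq_zero.1 e1) (norm_eq_zero.1 e2)
  have hc1 : Continuous fun x => ‖(Ch.c x).1‖ := (continuous_fst.comp Ch.cont).norm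
  have hc2 : Continuous fun x => ‖(Ch.c x).2‖ := (continuous_snd.comp Ch.cont).norm
  have hρ : 0 < min ρb ρe := lt_min hρb hρe
  obtain ⟨ρ₁, hρ₁, hex1⟩ := exit R.T R.T.continuous R.q (fun x => ‖(Ch.c x).1‖)
    (fun x => ‖(Ch.c x).2‖) hc1 hc2 (fun _ => norm_nonneg _) (fun _ => norm_nonneg _) hq0
    Ch.basis hρ (hball _ (min_le_left _ _)).1
    (fun y e1 e2 => (hest y (le_trans e1 (min_le_right _ _))).1 e2)
    (fun x => ‖R.a x‖) (fun x => ‖R.b x‖) R.cont_a.norm R.cont_b.norm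
    (fun y e => norm_eq_zero.2 ((R.a_T_eq_zero y).2 (norm_eq_zero.1 e)))
    (fun y => by
      rw [abs_norm, abs_norm]
      have := R.grow_b y
      nlinarith [norm_nonneg (R.b (R.T y))])
    (by rw [R.b_q, norm_zero])
    (fun y e1 e2 => R.uniq y (norm_eq_zero.1 e1) (norm_eq_zero.1 e2))
  have hbasis' : (𝓝 R.q).HasBasis (fun ρ : ℝ => 0 < ρ)
      fun ρ => {y | max ‖(Ch.c y).2‖ ‖(Ch.c y).1‖ ≤ ρ} := by
    have := Ch.basis
    simp only [hnorm, max_comm ‖(Ch.c _).1‖] at this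
    exact this
  have hcomp' : IsCompact {y | max ‖(Ch.c y).2‖ ‖(Ch.c y).1‖ ≤ min ρb ρe} := by
    have := (hball _ (min_le_left ρb ρe)).1
    simp only [hnorm, max_comm ‖(Ch.c _).1‖] at this
    exact this
  obtain ⟨ρ₂, hρ₂, hex2⟩ := exit R.T.symm R.T.symm.continuous R.q (fun x => ‖(Ch.c x).2‖)
    (fun x => ‖(Ch.c x).1‖) hc2 hc1 (fun _ => norm_nonneg _) (fun _ => norm_nonneg _)
    (fun y e1 e2 => hq0 y e2 e1) hbasis' hρ hcomp'
    (fun y e1 e2 => (hest y (le_trans (le_of_eq (by rw [hnorm, max_comm]))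
      (le_trans e1 (min_le_right _ _)))).2.2.1 e2)
    (fun x => ‖R.b x‖) (fun x => ‖R.a x‖) R.cont_b.norm R.cont_a.norm
    (fun y e => norm_eq_zero.2 ((R.b_T_eq_zero (R.T.symm y)).1 (by
      rw [Homeomorph.apply_symm_apply]
      exact norm_eq_zero.1 e)))
    (fun y => by
      have e2 := R.grow_a (R.T.symm y)
      rw [Homeomorph.apply_symm_apply] at e2
      rw [abs_norm, abs_norm]
      nlinarith [norm_nonneg (R.a (R.T.symm y))])
    (by rw [R.a_q, norm_zero])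
    (fun y e1 e2 => R.uniq y (norm_eq_zero.1 e2) (norm_eq_zero.1 e1))
  have hfs : R.T.symm R.q = R.q := by
    rw [Homeomorph.symm_apply_eq, R.fix]
  obtain ⟨ρT, hρT, hT⟩ : ∃ ρ > 0, ∀ x, ‖Ch.c x‖ ≤ ρ → ‖Ch.c (R.T x)‖ ≤ ρ₁ := by
    have e1 : {x | ‖Ch.c (R.T x)‖ ≤ ρ₁} ∈ 𝓝 R.q := by
      have e2 : Tendsto R.T (𝓝 R.q) (𝓝 R.q) := by
        have := R.T.continuous.tendsto R.q
        rwa [R.fix] at this
      exact e2 (Ch.basis.mem_of_mem hρ₁)
    obtain ⟨ρ, h1, h2⟩ := Ch.basis.mem_iff.1 e1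
    exact ⟨ρ, h1, fun x hx => h2 hx⟩
  obtain ⟨ρS, hρS, hS⟩ : ∃ ρ > 0, ∀ x, ‖Ch.c x‖ ≤ ρ → ‖Ch.c (R.T.symm x)‖ ≤ ρ₂ := by
    have e1 : {x | ‖Ch.c (R.T.symm x)‖ ≤ ρ₂} ∈ 𝓝 R.q := by
      have e2 : Tendsto R.T.symm (𝓝 R.q) (𝓝 R.q) := by
        have := R.T.symm.continuous.tendsto R.q
        rwa [hfs] at this
      exact e2 (Ch.basis.mem_of_mem hρ₂)
    obtain ⟨ρ, h1, h2⟩ := Ch.basis.mem_iff.1 e1
    exact ⟨ρ, h1, fun x hx => h2 hx⟩
  -- the two exit statements in terms of the norm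
  have X1 : ∀ x, ‖Ch.c x‖ ≤ ρ₁ → x ≠ R.q → R.a x = 0 → ‖(Ch.c x).1‖ < ‖(Ch.c x).2‖ := by
    intro x e1 e2 e3
    by_contra e4
    exact hex1 x e1 e2 (not_lt.1 e4) (by rw [e3, norm_zero])
  have X2 : ∀ x, ‖Ch.c x‖ ≤ ρ₂ → x ≠ R.q → R.b x = 0 → ‖(Ch.c x).2‖ < ‖(Ch.c x).1‖ := by
    intro x e1 e2 e3
    by_contra e4
    refine hex2 x ?_ e2 (not_lt.1 e4) (by rw [e3, norm_zero])
    rw [hnorm, max_comm] at e1
    exact e1
  refine ⟨κ, hκ, min (min (min ρb ρe) (min ρi ρ₁)) (min ρ₂ (min ρT ρS)), by positivity, ?_⟩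
  intro ρ hρ0 hρle
  simp only [le_min_iff] at hρle
  obtain ⟨⟨⟨lb, le⟩, li, l1⟩, l2, lT, lS⟩ := hρle
  have hcq : ‖Ch.c R.q‖ < ρ := by
    rw [Ch.c_q, norm_zero]
    exact hρ0
  have hn1 : ∀ x, ‖(Ch.c x).1‖ ≤ ‖Ch.c x‖ := fun x => norm_fst_le _
  have hn2 : ∀ x, ‖(Ch.c x).2‖ ≤ ‖Ch.c x‖ := fun x => norm_snd_le _
  refine ⟨hρ0, (hball ρ lb).1, (hball ρ lb).2, ?_, ?_, ?_, ?_, ?_, ?_⟩
  · intro x h1 h2 h3
    have hx : x ≠ R.q := by
      rintro rfl
      rw [Ch.c_q] at h2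
      simp only [Prod.fst_zero, norm_zero] at h2
      exact hρ0.ne h2
    have h4 := X1 x (h1.trans l1) hx h3
    have h5 := hn2 x
    linarith
  · intro x h1 h2 h3
    have hx : x ≠ R.q := by
      rintro rfl
      rw [Ch.c_q] at h2
      simp only [Prod.snd_zero, norm_zero] at h2
      exact hρ0.ne h2
    have h4 := X2 x (h1.trans l2) hx h3
    have h5 := hn1 x
    linarith
  · intro x h1 h2
    by_cases hx : x = R.q
    · rw [hx, R.fix]
      exact hcq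
    by_cases hx' : R.T x = R.q
    · rw [hx']
      exact hcq
    have h3 := X1 x (h1.trans l1) hx h2
    have h4 : R.a (R.T x) = 0 := (R.a_T_eq_zero x).2 h2
    have h5 := X1 (R.T x) (hT x (h1.trans lT)) hx' h4
    have h6 := (hest x (h1.trans le)).2.1 h3.le
    have h7 := hn2 x
    rw [hnorm (R.T x), max_eq_right h5.le]
    linarith
  · intro x h1 h2
    by_cases hx : x = R.q
    · rw [hx, hfs]
      exact hcq
    by_cases hx' : R.T.symm x = R.q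
    · rw [hx']
      exact hcq
    have h3 := X2 x (h1.trans l2) hx h2
    have h4 : R.b (R.T.symm x) = 0 := (R.b_T_eq_zero (R.T.symm x)).1 (by
      rw [Homeomorph.apply_symm_apply]
      exact h2)
    have h5 := X2 (R.T.symm x) (hS x (h1.trans lS)) hx' h4
    have h6 := (hest x (h1.trans le)).2.2.2 h3.le
    have h7 := hn1 x
    rw [hnorm (R.T.symm x), max_eq_left h5.le]
    linarith
  · exact fun x h1 => (hinj x (h1.trans li)).1
  · exact fun x h1 => (hinj x (h1.trans li)).2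

end Pool.Agent.ANO3.Conn
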