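import Pool.Agent.ANO3.Conn.Defs

/-!
# ANO3, module Conn: the zeros and the faces for large `n` (package CONN-LIM)

`om_compact`: `Om n` is closed and contained in the image under `T'.symm^[n]` of the compact set
`{y | ‖c' y‖ ≤ ρ'}`.

`tendsto_a`: if `a x = 0` then `T^[n] x → q`: the orbit is in the compact set `K` of `bdd_a`; a
cluster point `z` has `a z = 0` (`a (T^[n] x) = 0`: `a_iter_eq_zero`) and `b z = 0`
(`‖b (T^[n] x)‖ ≤ L ^ (-n) ‖b x‖ → 0`: `norm_b_iter`), so `z = q` (`uniq`). (A sequence in a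
compact set of a metric space all of whose cluster points are `q` tends to `q`.) In the same way
`tendsto_b` for `T.symm` (`a` tends to zero: `L ^ n ‖a (T.symm^[n] x)‖ ≤ ‖a x‖` from `norm_a_iter`
at `T.symm^[n] x`).

`zeros_in`: let `O n = {x ∈ Z | ‖c' (T'^[n] x)‖ < ρ'}`, relatively open in the compact set `Z`;
`O n ⊆ O (n + 1)` by `Box.a_inv` (`a' (T'^[n] x) = 0`), and every `x ∈ Z` is in some `O n` by
`tendsto_a` (`c' q = 0`, continuity). So `O n = Z` for some `n` and all larger ones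
(`IsCompact.elim_directed_cover`). The same for `b''`.

`faces`: the set `{y | ‖c' y‖ ≤ ρ', ‖(c' y).2‖ = ρ'}` is compact and `b' ≠ 0` on it (`Box.b_ne`), so
`‖b' y‖ ≥ ε > 0`. If `x ∈ Om n` and `y = T'^[n] x` is in this set then by `norm_b_iter`
`‖b' x‖ ≥ L' ^ n ε`. But `x = T''^[n] y''` with `y'' = T''.symm^[n] x` in the compact set
`{‖c'' y‖ ≤ ρ''}`, so `‖b' x‖ ≤ C` by `Cross.b`. For large `n` this is impossible. The same with
`Cross.a` and `norm_a_iter` for the second face: `‖a'' (T''.symm^[n] x)‖ ≥ ε`,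
`‖a'' x‖ ≥ L'' ^ n ε`, and `x = T'.symm^[n] (T'^[n] x)`.
-/

set_option autoImplicit false

open Set Filter Topology

namespace Pool.Agent.ANO3.Conn

open Pool.Agent.ANO Pool.Agent.ANO2

variable {r k : ℕ} {S : Fin r → ClosedSurface} {F : X r k ≃ₜ X r k}
variable {E₁ E₂ : Type} [NormedAddCommGroup E₁] [NormedSpace ℝ E₁]
  [NormedAddCommGroup E₂] [NormedSpace ℝ E₂]

private theorem cont_c {H : Hyp S F} {R : RP S F} (Ch : Chart E₁ E₂ H R) :
    Continuous Ch.c := by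
  unfold Chart.c
  refine Ch.C.continuous.comp (Continuous.sub ?_ continuous_const)
  unfold toE
  exact (continuous_pi fun i => UpperHalfPlane.continuous_coe.comp
    ((continuous_apply i).comp continuous_fst)).prodMk continuous_snd

private theorem cont_T (R : RP S F) (n : ℕ) : Continuous (R.T^[n]) := R.T.continuous.iterate n

private theorem cont_Ts (R : RP S F) (n : ℕ) : Continuous (R.T.symm^[n]) :=
  R.T.symm.continuous.iterate n

private theorem c_q {H : Hyp S F} {R : RP S F} (Ch : Chart E₁ E₂ H R) : Ch.c R.q = 0 := by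
  unfold Chart.c
  rw [sub_self, map_zero]

theorem om_compact {H : Hyp S F} {R' R'' : RP S F} (C' : Chart E₁ E₂ H R') (C'' : Chart E₁ E₂ H R'')
    {ρ' ρ'' κ' κ'' : ℝ} (B' : Box C' ρ' κ') (B'' : Box C'' ρ'' κ'') (n : ℕ) :
    IsCompact (Om C' C'' ρ' ρ'' n) := by
  refine (B'.compact.image (cont_Ts R' n)).of_isClosed_subset ?_ ?_
  · refine IsClosed.and ?_ ?_
    · exact isClosed_le ((cont_c C').comp (cont_T R' n)).norm continuous_const
    · exact isClosed_le ((cont_c C'').comp (cont_Ts R'' n)).norm continuous_const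
  · intro x hx
    exact ⟨R'.T^[n] x, hx.1, R'.symm_iter n x⟩

private theorem tendsto_core (R : RP S F) (u : ℕ → X r k) {K : Set (X r k)} (hK : IsCompact K)
    (hu : ∀ n, u n ∈ K) (ha : Tendsto (fun n => R.a (u n)) atTop (𝓝 0))
    (hb : Tendsto (fun n => R.b (u n)) atTop (𝓝 0)) : Tendsto u atTop (𝓝 R.q) := by
  refine hK.tendsto_nhds_of_unique_mapClusterPt (Eventually.of_forall hu) fun z _ hz => ?_
  obtain ⟨ψ, hψ, h1⟩ := hz.tendsto_subseq
  have h2 : R.a z = 0 := tendsto_nhds_unique ((R.cont_a.tendsto z).comp h1)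
    (ha.comp hψ.tendsto_atTop)
  have h3 : R.b z = 0 := tendsto_nhds_unique ((R.cont_b.tendsto z).comp h1)
    (hb.comp hψ.tendsto_atTop)
  exact R.uniq z h2 h3

private theorem tendsto_small (R : RP S F) {w : ℕ → A r} {c : ℝ}
    (h : ∀ n : ℕ, R.L ^ n * ‖w n‖ ≤ c) : Tendsto w atTop (𝓝 0) := by
  have h0 : 0 < R.L := lt_trans one_pos R.one_lt
  have h1 : Tendsto (fun n : ℕ => c * (R.L⁻¹) ^ n) atTop (𝓝 (c * 0)) :=
    (tendsto_pow_atTop_nhds_zero_of_lt_one (inv_nonneg.2 h0.le)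
      (inv_lt_one_of_one_lt₀ R.one_lt)).const_mul c
  rw [mul_zero] at h1
  refine squeeze_zero_norm (fun n => ?_) h1
  rw [inv_pow, ← div_eq_mul_inv, le_div_iff₀ (pow_pos h0 n), mul_comm]
  exact h n

theorem tendsto_a (R : RP S F) {x : X r k} (h : R.a x = 0) :
    Tendsto (fun n : ℕ => R.T^[n] x) atTop (𝓝 R.q) := by
  obtain ⟨K, hK, hu⟩ := R.bdd_a x h
  refine tendsto_core R _ hK hu ?_ (tendsto_small R fun n => R.norm_b_iter n x)
  have h1 : (fun n : ℕ => R.a (R.T^[n] x)) = fun _ => 0 := by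
    funext n
    exact (R.a_iter_eq_zero n x).2 h
  rw [h1]
  exact tendsto_const_nhds

theorem tendsto_b (R : RP S F) {x : X r k} (h : R.b x = 0) :
    Tendsto (fun n : ℕ => R.T.symm^[n] x) atTop (𝓝 R.q) := by
  obtain ⟨K, hK, hu⟩ := R.bdd_b x h
  refine tendsto_core R _ hK hu (tendsto_small R (c := ‖R.a x‖) fun n => ?_) ?_
  · have h1 := R.norm_a_iter n (R.T.symm^[n] x)
    rwa [R.iter_symm] at h1
  · have h1 : (fun n : ℕ => R.b (R.T.symm^[n] x)) = fun _ => 0 := by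
      funext n
      rw [← R.b_iter_eq_zero n, R.iter_symm, h]
    rw [h1]
    exact tendsto_const_nhds

private theorem unif_lt {Z : Set (X r k)} (hZ : IsCompact Z) {φ : ℕ → X r k → ℝ}
    (hφ : ∀ n, Continuous (φ n)) {ρ : ℝ} (hcov : ∀ x ∈ Z, ∃ n, φ n x < ρ)
    (hstep : ∀ x ∈ Z, ∀ n, φ n x < ρ → φ (n + 1) x < ρ) :
    ∃ n₀ : ℕ, ∀ n, n₀ ≤ n → ∀ x ∈ Z, φ n x < ρ := by
  obtain ⟨t, ht⟩ := hZ.elim_finite_subcover (fun n => {x | φ n x < ρ})
    (fun n => isOpen_lt (hφ n) continuous_const) (fun x hx => by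
      obtain ⟨n, hn⟩ := hcov x hx
      exact mem_iUnion.2 ⟨n, hn⟩)
  refine ⟨t.sup id, fun n hn x hx => ?_⟩
  obtain ⟨m, hm, h1⟩ := mem_iUnion₂.1 (ht hx)
  have h2 : m ≤ n := (Finset.le_sup (f := id) hm).trans hn
  exact Nat.le_induction (P := fun j _ => φ j x < ρ) h1 (fun j _ hj => hstep x hx j hj) n h2

theorem zeros_in {H : Hyp S F} {R' R'' : RP S F} (C' : Chart E₁ E₂ H R') (C'' : Chart E₁ E₂ H R'')
    {ρ' ρ'' κ' κ'' : ℝ} (B' : Box C' ρ' κ') (B'' : Box C'' ρ'' κ'')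
    (hZ : IsCompact {x | R'.a x = 0 ∧ R''.b x = 0}) :
    ∃ n₀ : ℕ, ∀ n, n₀ ≤ n → ∀ x, R'.a x = 0 → R''.b x = 0 →
      ‖C'.c (R'.T^[n] x)‖ < ρ' ∧ ‖C''.c (R''.T.symm^[n] x)‖ < ρ'' := by
  obtain ⟨n₁, h1⟩ := unif_lt hZ (φ := fun n x => ‖C'.c (R'.T^[n] x)‖) (ρ := ρ')
    (fun n => ((cont_c C').comp (cont_T R' n)).norm) (fun x hx => by
      have h2 : Tendsto (fun n : ℕ => ‖C'.c (R'.T^[n] x)‖) atTop (𝓝 ‖C'.c R'.q‖) :=
        ((cont_c C').norm.tendsto R'.q).comp (tendsto_a R' hx.1)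
      rw [c_q, norm_zero] at h2
      exact (h2.eventually (gt_mem_nhds B'.pos)).exists) (fun x hx n hn => by
      have h2 := B'.a_inv (R'.T^[n] x) hn.le ((R'.a_iter_eq_zero n x).2 hx.1)
      rwa [← Function.iterate_succ_apply' R'.T] at h2)
  obtain ⟨n₂, h2⟩ := unif_lt hZ (φ := fun n x => ‖C''.c (R''.T.symm^[n] x)‖) (ρ := ρ'')
    (fun n => ((cont_c C'').comp (cont_Ts R'' n)).norm) (fun x hx => by
      have h2 : Tendsto (fun n : ℕ => ‖C''.c (R''.T.symm^[n] x)‖) atTop (𝓝 ‖C''.c R''.q‖) :=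
        ((cont_c C'').norm.tendsto R''.q).comp (tendsto_b R'' hx.2)
      rw [c_q, norm_zero] at h2
      exact (h2.eventually (gt_mem_nhds B''.pos)).exists) (fun x hx n hn => by
      have h3 : R''.b (R''.T.symm^[n] x) = 0 := by
        rw [← R''.b_iter_eq_zero n, R''.iter_symm]
        exact hx.2
      have h2 := B''.b_inv (R''.T.symm^[n] x) hn.le h3
      rwa [← Function.iterate_succ_apply' R''.T.symm] at h2)
  exact ⟨max n₁ n₂, fun n hn x ha hb => ⟨h1 n ((le_max_left _ _).trans hn) x ⟨ha, hb⟩,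
    h2 n ((le_max_right _ _).trans hn) x ⟨ha, hb⟩⟩⟩

private theorem exists_eps {K : Set (X r k)} (hK : IsCompact K) {w : X r k → A r}
    (hw : Continuous w) (h : ∀ x ∈ K, w x ≠ 0) : ∃ ε : ℝ, 0 < ε ∧ ∀ x ∈ K, ε ≤ ‖w x‖ := by
  rcases K.eq_empty_or_nonempty with h0 | h0
  · refine ⟨1, one_pos, fun x hx => ?_⟩
    rw [h0] at hx
    exact absurd hx (notMem_empty x)
  · obtain ⟨z, hz, hm⟩ := hK.exists_isMinOn h0 hw.norm.continuousOn
    exact ⟨‖w z‖, norm_pos_iff.2 (h z hz), fun x hx => hm hx⟩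

private theorem large_pow {L ε C : ℝ} (hL : 1 < L) (hε : 0 < ε) :
    ∃ n₀ : ℕ, ∀ n, n₀ ≤ n → C < L ^ n * ε := by
  have h1 : Tendsto (fun n : ℕ => L ^ n * ε) atTop atTop :=
    (tendsto_pow_atTop_atTop_of_one_lt hL).atTop_mul_const hε
  exact eventually_atTop.1 (h1.eventually_gt_atTop C)

theorem faces {H : Hyp S F} {R' R'' : RP S F} (C' : Chart E₁ E₂ H R') (C'' : Chart E₁ E₂ H R'')
    {ρ' ρ'' κ' κ'' : ℝ} (B' : Box C' ρ' κ') (B'' : Box C'' ρ'' κ'') (hc : Cross R' R'') :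
    ∃ n₀ : ℕ, ∀ n, n₀ ≤ n → ∀ x ∈ Om C' C'' ρ' ρ'' n,
      ‖(C'.c (R'.T^[n] x)).2‖ < ρ' ∧ ‖(C''.c (R''.T.symm^[n] x)).1‖ < ρ'' := by
  have k1 : IsCompact {y | ‖C'.c y‖ ≤ ρ' ∧ ‖(C'.c y).2‖ = ρ'} := by
    refine B'.compact.of_isClosed_subset ?_ fun y hy => hy.1
    exact (isClosed_le (cont_c C').norm continuous_const).inter
      (isClosed_eq (continuous_snd.comp (cont_c C')).norm continuous_const)
  have k2 : IsCompact {y | ‖C''.c y‖ ≤ ρ'' ∧ ‖(C''.c y).1‖ = ρ''} := by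
    refine B''.compact.of_isClosed_subset ?_ fun y hy => hy.1
    exact (isClosed_le (cont_c C'').norm continuous_const).inter
      (isClosed_eq (continuous_fst.comp (cont_c C'')).norm continuous_const)
  obtain ⟨e1, he1, h1⟩ := exists_eps k1 R'.cont_b fun y hy => B'.b_ne y hy.1 hy.2
  obtain ⟨e2, he2, h2⟩ := exists_eps k2 R''.cont_a fun y hy => B''.a_ne y hy.1 hy.2
  obtain ⟨c1, hc1⟩ := hc.b _ B''.compact
  obtain ⟨c2, hc2⟩ := hc.a _ B'.compact
  obtain ⟨n1, hn1⟩ := large_pow (C := c1) R'.one_lt he1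
  obtain ⟨n2, hn2⟩ := large_pow (C := c2) R''.one_lt he2
  refine ⟨max n1 n2, fun n hn x hx => ⟨?_, ?_⟩⟩
  · by_contra hlt
    push Not at hlt
    have h3 : ‖(C'.c (R'.T^[n] x)).2‖ = ρ' := le_antisymm ((norm_snd_le _).trans hx.1) hlt
    have h4 := h1 _ ⟨hx.1, h3⟩
    have h5 := R'.norm_b_iter n x
    have h6 := hc1 _ hx.2 n
    rw [R''.iter_symm] at h6
    have h7 := hn1 n ((le_max_left _ _).trans hn)
    have h8 : 0 < R'.L ^ n := pow_pos (lt_trans one_pos R'.one_lt) n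
    have h9 := mul_le_mul_of_nonneg_left h4 h8.le
    linarith
  · by_contra hlt
    push Not at hlt
    have h3 : ‖(C''.c (R''.T.symm^[n] x)).1‖ = ρ'' :=
      le_antisymm ((norm_fst_le _).trans hx.2) hlt
    have h4 := h2 _ ⟨hx.2, h3⟩
    have h5 := R''.norm_a_iter n (R''.T.symm^[n] x)
    rw [R''.iter_symm] at h5
    have h6 := hc2 _ hx.1 n
    rw [R'.symm_iter] at h6
    have h7 := hn2 n ((le_max_right _ _).trans hn)
    have h8 : 0 < R''.L ^ n := pow_pos (lt_trans one_pos R''.one_lt) n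
    have h9 := mul_le_mul_of_nonneg_left h4 h8.le
    linarith

end Pool.Agent.ANO3.Conn
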