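import Pool.Agent.ANO3.Conn.Inj
import Pool.Agent.ANO2.Idx.Sgn
import Pool.Agent.ANO.Idx.SignC

/-!
# ANO3, module Conn: the sign of the Jacobian of `G_n` is constant (package CONN-SIGN)

Let `n ≥ n₀` (`inj_G`), `j x = C₀ (toE x)`, `Ĝ = hat C₀ (G C' C'' n)`. `smooth_G`: `Ĝ` is `C¹` on
the open set `C₀ '' dom r k`, and its derivative at `j x` is `L₀ x ∘ C₀.symm`, where
`L_t x v = ((C' (A' (P v + (1-t) (v - P v)))).1, (C'' (A'' ((v - P v) + (1-t) P v))).2)`,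
`P = P x`, `A' = tmap T'^[n] x`, `A'' = tmap T''.symm^[n] x` (chain rule; `iter_smooth`,
`Chart.c y = C (toE y - toE q)`).

`sign_G`: (1) for `x ∈ Om`: by `inj_G` `L_t x : E r k → E₁ × E₂` is injective for `t ∈ [0, 1]`, so
`det (C₀.symm ∘ L_t x) ≠ 0` and (`Idx.sign_eq_of_path`) the signs for `t = 0` and `t = 1` agree.
(2) `L₁ x v = ((C' (P y' (A' v))).1, (C'' (A'' v - P y'' (A'' v))).2)`, `y' = T'^[n] x`,
`y'' = T''.symm^[n] x` (`iter_comm`). Let `K₀` be a compact convex subset of `dom r k` which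
contains `toE '' Om` (`Om` is compact: contained in the image under `T'.symm^[n]` of the compact
box) and `K` a compact convex subset of `dom r k` which contains `K₀`, `loc T'^[n] '' K₀`,
`loc T''.symm^[n] '' K₀` and the two boxes (compact convex sets: `Idx.compact_ball`,
`Idx.convex_ball` with a large radius). Let `S`, `R = S⁻¹` be the trivialisation of
`x ↦ P (ofE x)` over `K` (`ANO.Idx.exists_triv`), `P₀` the projection at the base point:
`P y S y = S y P₀`. For `x ∈ K₀` put `J' x = R y' A' S x`, `J'' x = R y'' A'' S x`: they commute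
with `P₀` and are invertible, so `J x = J' x P₀ + J'' x (1 - P₀)` is invertible (injective: apply
`P₀`, `1 - P₀`), continuous in `x ∈ K₀`. For `y'` in the first box and `y''` in the second box put
`B y' y'' u = ((C' (S y' (P₀ u))).1, (C'' (S y'' (u - P₀ u))).2)`: injective by `Box.inj_u`,
`Box.inj_s` (`P y' (S y' P₀ u) = S y' P₀ u`, `P y'' (S y'' (u - P₀ u)) = 0`), continuous in
`(y', y'')`; the boxes are convex in the coordinates `toE` (images of balls under an affine map: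
`{y | ‖C (y - toE q)‖ ≤ ρ}`, contained in `dom r k` by `Box.surj`). And
`L₁ x = B y' y'' ∘ J x ∘ R x` for `x ∈ Om`. So the sign of `det (C₀.symm ∘ L₁ x)` is the product of
the signs of `det (C₀.symm ∘ B y' y'')`, `det (J x)`, `det (R x)`, each constant: a continuous
function without zeros on a convex (preconnected) set has constant sign. (The determinant of
`C₀ ∘ (C₀.symm ∘ L) ∘ C₀.symm` is that of `C₀.symm ∘ L`: `LinearMap.det_conj`.)
-/

set_option autoImplicit false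
set_option linter.unusedSectionVars false

open Set Filter Topology
open Pool.Agent.SmoothDegree

namespace Pool.Agent.ANO3.Conn

open Pool.Agent.ANO Pool.Agent.ANO2

variable {r k : ℕ} {S : Fin r → ClosedSurface} {F : X r k ≃ₜ X r k}
variable {E₁ E₂ : Type} [NormedAddCommGroup E₁] [NormedSpace ℝ E₁]
  [NormedAddCommGroup E₂] [NormedSpace ℝ E₂] [FiniteDimensional ℝ E₁] [FiniteDimensional ℝ E₂]

private noncomputable def J1_Sign : E₁ × E₂ →L[ℝ] E₁ × E₂ :=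
  (ContinuousLinearMap.inl ℝ E₁ E₂) ∘L (ContinuousLinearMap.fst ℝ E₁ E₂)

private noncomputable def J2_Sign : E₁ × E₂ →L[ℝ] E₁ × E₂ :=
  (ContinuousLinearMap.inr ℝ E₁ E₂) ∘L (ContinuousLinearMap.snd ℝ E₁ E₂)

private theorem J_Sign (a b : E₁ × E₂) : J1_Sign a + J2_Sign b = (a.1, b.2) := by
  ext <;> simp [J1_Sign, J2_Sign]

/-- the linear map `v ↦ ((C' (A' v)).1, (C'' (A'' v)).2)` -/
private noncomputable def L_Sign (c' c'' : E r k →L[ℝ] E₁ × E₂) (A' A'' : E r k →L[ℝ] E r k) :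
    E r k →L[ℝ] E₁ × E₂ :=
  J1_Sign ∘L (c' ∘L A') + J2_Sign ∘L (c'' ∘L A'')

private theorem L_apply_Sign (c' c'' : E r k →L[ℝ] E₁ × E₂) (A' A'' : E r k →L[ℝ] E r k)
    (v : E r k) : L_Sign c' c'' A' A'' v = ((c' (A' v)).1, (c'' (A'' v)).2) :=
  J_Sign _ _

private theorem deriv_Sign {H : Hyp S F} {R' R'' : RP S F} (C' : Chart E₁ E₂ H R')
    (C'' : Chart E₁ E₂ H R'') (C₀ : E r k ≃L[ℝ] E₁ × E₂) (n : ℕ) (x : X r k) :
    HasFDerivAt (hat C₀ (G C' C'' n))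
      (L_Sign (C'.C : E r k →L[ℝ] E₁ × E₂) (C''.C : E r k →L[ℝ] E₁ × E₂)
        (tmap R'.T^[n] x) (tmap R''.T.symm^[n] x) ∘L (C₀.symm : E₁ × E₂ →L[ℝ] E r k))
      (C₀ (toE x)) := by
  have h0 : HasFDerivAt (fun z : E₁ × E₂ => C₀.symm z) (C₀.symm : E₁ × E₂ →L[ℝ] E r k)
      (C₀ (toE x)) := C₀.symm.hasFDerivAt
  have e0 : C₀.symm (C₀ (toE x)) = toE x := C₀.symm_apply_apply _
  have h1 : HasFDerivAt (loc R'.T^[n]) (tmap R'.T^[n] x) (C₀.symm (C₀ (toE x))) := by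
    rw [e0]
    exact ANO.Idx.hasFDerivAt_loc (iter_smooth H R' n).1 x
  have h2 : HasFDerivAt (loc R''.T.symm^[n]) (tmap R''.T.symm^[n] x)
      (C₀.symm (C₀ (toE x))) := by
    rw [e0]
    exact ANO.Idx.hasFDerivAt_loc (iter_smooth H R'' n).2 x
  have h3 := (h1.comp (C₀ (toE x)) h0).sub_const (toE R'.q)
  have h4 := (h2.comp (C₀ (toE x)) h0).sub_const (toE R''.q)
  have h5 := (ContinuousLinearMap.hasFDerivAt (J1_Sign ∘L (C'.C : E r k →L[ℝ] E₁ × E₂))).comp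
    (C₀ (toE x)) h3
  have h6 := (ContinuousLinearMap.hasFDerivAt (J2_Sign ∘L (C''.C : E r k →L[ℝ] E₁ × E₂))).comp
    (C₀ (toE x)) h4
  have h7 := h5.add h6
  refine h7.congr_of_eventuallyEq (Filter.Eventually.of_forall fun z => ?_)
  exact (J_Sign _ _).symm

theorem smooth_G {H : Hyp S F} {R' R'' : RP S F} (C' : Chart E₁ E₂ H R') (C'' : Chart E₁ E₂ H R'')
    (C₀ : E r k ≃L[ℝ] E₁ × E₂) (n : ℕ) :
    ContDiffOn ℝ 1 (hat C₀ (G C' C'' n)) (C₀ '' dom r k) ∧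
      ∀ (x : X r k) (v : E r k), fderiv ℝ (hat C₀ (G C' C'' n)) (C₀ (toE x)) (C₀ v) =
        ((C'.C (tmap R'.T^[n] x v)).1, (C''.C (tmap R''.T.symm^[n] x v)).2) := by
  constructor
  · have hm : MapsTo (fun z : E₁ × E₂ => C₀.symm z) (C₀ '' dom r k) (dom r k) := by
      rintro _ ⟨y, hy, rfl⟩
      show C₀.symm (C₀ y) ∈ dom r k
      rw [C₀.symm_apply_apply]
      exact hy
    have h0 : ContDiffOn ℝ 1 (fun z : E₁ × E₂ => C₀.symm z) (C₀ '' dom r k) :=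
      C₀.symm.contDiff.contDiffOn
    have h1 := ((iter_smooth H R' n).1.comp h0 hm).sub (contDiffOn_const (c := toE R'.q))
    have h2 := ((iter_smooth H R'' n).2.comp h0 hm).sub (contDiffOn_const (c := toE R''.q))
    have h3 := (ContinuousLinearMap.contDiff
      (J1_Sign ∘L (C'.C : E r k →L[ℝ] E₁ × E₂))).comp_contDiffOn h1
    have h4 := (ContinuousLinearMap.contDiff
      (J2_Sign ∘L (C''.C : E r k →L[ℝ] E₁ × E₂))).comp_contDiffOn h2
    exact (h3.add h4).congr fun z _ => (J_Sign _ _).symm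
  · intro x v
    rw [(deriv_Sign C' C'' C₀ n x).fderiv]
    have h1 : (L_Sign (C'.C : E r k →L[ℝ] E₁ × E₂) (C''.C : E r k →L[ℝ] E₁ × E₂)
        (tmap R'.T^[n] x) (tmap R''.T.symm^[n] x) ∘L (C₀.symm : E₁ × E₂ →L[ℝ] E r k)) (C₀ v) =
        L_Sign (C'.C : E r k →L[ℝ] E₁ × E₂) (C''.C : E r k →L[ℝ] E₁ × E₂)
        (tmap R'.T^[n] x) (tmap R''.T.symm^[n] x) (C₀.symm (C₀ v)) := rfl
    rw [h1, C₀.symm_apply_apply, L_apply_Sign]
    rfl

private theorem det_mul_Sign {W : Type*} [NormedAddCommGroup W] [NormedSpace ℝ W]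
    (f g : W →L[ℝ] W) : (f ∘L g).det = f.det * g.det :=
  LinearMap.det_comp (f : W →ₗ[ℝ] W) (g : W →ₗ[ℝ] W)

private theorem det_ne_Sign {W : Type*} [NormedAddCommGroup W] [NormedSpace ℝ W]
    [FiniteDimensional ℝ W] {f : W →L[ℝ] W} (h : ∀ v, f v = 0 → v = 0) : f.det ≠ 0 := by
  intro h0
  have h1 : LinearMap.det (f : W →ₗ[ℝ] W) = 0 := h0
  have h2 := LinearMap.bot_lt_ker_of_det_eq_zero h1
  refine h2.ne' ?_
  rw [LinearMap.ker_eq_bot']
  exact h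

private theorem inj_Sign {W : Type*} [NormedAddCommGroup W] [NormedSpace ℝ W]
    [FiniteDimensional ℝ W] {f : W →L[ℝ] W} (h : f.det ≠ 0) {v : W} (hv : f v = 0) : v = 0 := by
  have h1 : LinearMap.det (f : W →ₗ[ℝ] W) ≠ 0 := h
  have h2 : (LinearMap.equivOfDetNeZero (f : W →ₗ[ℝ] W) h1) v = 0 := hv
  exact (LinearEquiv.map_eq_zero_iff _).1 h2

/-- a continuous function without zeros on a convex set has constant sign -/
private theorem sign_conv_Sign {W : Type*} [NormedAddCommGroup W] [NormedSpace ℝ W] {K : Set W}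
    (hK : Convex ℝ K) {f : W → ℝ} (hf : ContinuousOn f K) (h0 : ∀ x ∈ K, f x ≠ 0) {x y : W}
    (hx : x ∈ K) (hy : y ∈ K) : SignType.sign (f x) = SignType.sign (f y) := by
  have hm : MapsTo (fun t : ℝ => x + t • (y - x)) (Icc 0 1) K := fun t ht =>
    hK.add_smul_sub_mem hx hy ht
  have h1 : ContinuousOn (fun t : ℝ => f (x + t • (y - x))) (Icc 0 1) :=
    hf.comp (by fun_prop) hm
  have h2 := ANO.Idx.sign_eq_of_path h1 fun t ht => h0 _ (hm ht)
  beta_reduce at h2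
  rw [zero_smul, add_zero, one_smul, add_sub_cancel] at h2
  exact h2

/-- the linear algebra of `J` -/
private theorem alg_Sign {V : Type*} [NormedAddCommGroup V] [NormedSpace ℝ V]
    {P P' P'' P₀ S R' R'' A' A'' : V →L[ℝ] V} (h0 : P₀ * P₀ = P₀) (hS : P * S = S * P₀)
    (hR' : R' * P' = P₀ * R') (hR'' : R'' * P'' = P₀ * R'') (hA' : P' * A' = A' * P)
    (hA'' : P'' * A'' = A'' * P) :
    P₀ * (R' * A' * S * P₀ + R'' * A'' * S * (1 - P₀)) = R' * A' * S * P₀ ∧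
      (1 - P₀) * (R' * A' * S * P₀ + R'' * A'' * S * (1 - P₀)) = R'' * A'' * S * (1 - P₀) := by
  have e1 : P₀ * (R' * A' * S) = (R' * A' * S) * P₀ := by
    calc P₀ * (R' * A' * S) = (P₀ * R') * A' * S := by noncomm_ring
      _ = (R' * P') * A' * S := by rw [hR']
      _ = R' * (P' * A') * S := by noncomm_ring
      _ = R' * (A' * P) * S := by rw [hA']
      _ = R' * A' * (P * S) := by noncomm_ring
      _ = R' * A' * (S * P₀) := by rw [hS]
      _ = (R' * A' * S) * P₀ := by noncomm_ring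
  have e2 : P₀ * (R'' * A'' * S) = (R'' * A'' * S) * P₀ := by
    calc P₀ * (R'' * A'' * S) = (P₀ * R'') * A'' * S := by noncomm_ring
      _ = (R'' * P'') * A'' * S := by rw [hR'']
      _ = R'' * (P'' * A'') * S := by noncomm_ring
      _ = R'' * (A'' * P) * S := by rw [hA'']
      _ = R'' * A'' * (P * S) := by noncomm_ring
      _ = R'' * A'' * (S * P₀) := by rw [hS]
      _ = (R'' * A'' * S) * P₀ := by noncomm_ring
  have e3 : P₀ * (R' * A' * S * P₀ + R'' * A'' * S * (1 - P₀)) = (R' * A' * S) * P₀ := by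
    calc P₀ * (R' * A' * S * P₀ + R'' * A'' * S * (1 - P₀)) =
        P₀ * (R' * A' * S) * P₀ + P₀ * (R'' * A'' * S) * (1 - P₀) := by noncomm_ring
      _ = (R' * A' * S) * P₀ * P₀ + (R'' * A'' * S) * P₀ * (1 - P₀) := by rw [e1, e2]
      _ = (R' * A' * S) * (P₀ * P₀) + (R'' * A'' * S) * (P₀ - P₀ * P₀) := by noncomm_ring
      _ = (R' * A' * S) * P₀ := by rw [h0, sub_self, mul_zero, add_zero]
  refine ⟨e3, ?_⟩
  rw [sub_mul, one_mul, e3]
  abel

private theorem J_inj_Sign {V : Type*} [NormedAddCommGroup V] [NormedSpace ℝ V]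
    {P P' P'' P₀ S R' R'' A' A'' : V →L[ℝ] V} (h0 : P₀ * P₀ = P₀) (hS : P * S = S * P₀)
    (hR' : R' * P' = P₀ * R') (hR'' : R'' * P'' = P₀ * R'') (hA' : P' * A' = A' * P)
    (hA'' : P'' * A'' = A'' * P) (h' : ∀ v, (R' * A' * S) v = 0 → v = 0)
    (h'' : ∀ v, (R'' * A'' * S) v = 0 → v = 0) (v : V)
    (hv : (R' * A' * S * P₀ + R'' * A'' * S * (1 - P₀)) v = 0) : v = 0 := by
  obtain ⟨e1, e2⟩ := alg_Sign h0 hS hR' hR'' hA' hA''
  have e3 : (R' * A' * S) (P₀ v) = 0 := by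
    have h1 : (R' * A' * S) (P₀ v) = (R' * A' * S * P₀) v := rfl
    rw [h1, ← e1]
    show P₀ ((R' * A' * S * P₀ + R'' * A'' * S * (1 - P₀)) v) = 0
    rw [hv, map_zero]
  have e4 : (R'' * A'' * S) ((1 - P₀) v) = 0 := by
    have h1 : (R'' * A'' * S) ((1 - P₀) v) = (R'' * A'' * S * (1 - P₀)) v := rfl
    rw [h1, ← e2]
    show (1 - P₀) ((R' * A' * S * P₀ + R'' * A'' * S * (1 - P₀)) v) = 0
    rw [hv, map_zero]
  have e5 : v = P₀ v + (1 - P₀) v := by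
    show v = P₀ v + (v - P₀ v)
    abel
  rw [e5, h' _ e3, h'' _ e4, add_zero]

private theorem R_comm_Sign {V : Type*} [NormedAddCommGroup V] [NormedSpace ℝ V]
    {P P₀ S R : V →L[ℝ] V} (h1 : S * R = 1) (h2 : R * S = 1) (h : P * S = S * P₀) :
    R * P = P₀ * R := by
  calc R * P = R * P * (S * R) := by rw [h1, mul_one]
    _ = R * (P * S) * R := by noncomm_ring
    _ = R * (S * P₀) * R := by rw [h]
    _ = (R * S) * P₀ * R := by noncomm_ring
    _ = P₀ * R := by rw [h2, one_mul]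

private theorem cancel_Sign {V : Type*} [NormedAddCommGroup V] [NormedSpace ℝ V]
    {P P₀ S R S' R' A' : V →L[ℝ] V} (h1 : S' * R' = 1) (h : P * S = S * P₀) (h2 : S * R = 1) :
    S' * (R' * A' * S * P₀) * R = A' * P := by
  calc S' * (R' * A' * S * P₀) * R = (S' * R') * A' * (S * P₀) * R := by noncomm_ring
    _ = A' * (P * S) * R := by rw [h1, ← h, one_mul]
    _ = A' * P * (S * R) := by noncomm_ring
    _ = A' * P := by rw [h2, mul_one]

private theorem cancel2_Sign {V : Type*} [NormedAddCommGroup V] [NormedSpace ℝ V]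
    {P P₀ S R S' R' A' : V →L[ℝ] V} (h1 : S' * R' = 1) (h : P * S = S * P₀) (h2 : S * R = 1) :
    S' * (R' * A' * S * (1 - P₀)) * R = A' * (1 - P) := by
  calc S' * (R' * A' * S * (1 - P₀)) * R = (S' * R') * A' * (S - S * P₀) * R := by
        noncomm_ring
    _ = A' * (S - P * S) * R := by rw [h1, ← h, one_mul]
    _ = A' * (1 - P) * (S * R) := by noncomm_ring
    _ = A' * (1 - P) := by rw [h2, mul_one]

private theorem convex_box_Sign {H : Hyp S F} {R : RP S F} {Ch : Chart E₁ E₂ H R} {ρ κ : ℝ}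
    (B : Box Ch ρ κ) : Convex ℝ (toE '' {x : X r k | ‖Ch.c x‖ ≤ ρ}) := by
  have h : toE '' {x : X r k | ‖Ch.c x‖ ≤ ρ} = {y : E r k | ‖Ch.C (y - toE R.q)‖ ≤ ρ} := by
    ext y
    constructor
    · rintro ⟨x, hx, rfl⟩
      exact hx
    · intro hy
      obtain ⟨x, hx⟩ := B.surj _ hy
      have h1 : toE x - toE R.q = y - toE R.q := Ch.C.injective hx
      refine ⟨x, ?_, sub_left_injective h1⟩
      rw [mem_ofPred_eq, hx]
      exact hy
  rw [h]
  intro y hy z hz a b ha hb hab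
  have h1 : Ch.C (a • y + b • z - toE R.q) =
      a • Ch.C (y - toE R.q) + b • Ch.C (z - toE R.q) := by
    rw [← map_smul, ← map_smul, ← map_add]
    congr 1
    have h2 : toE R.q = a • toE R.q + b • toE R.q := by rw [← add_smul, hab, one_smul]
    nth_rewrite 1 [h2]
    rw [smul_sub, smul_sub]
    abel
  rw [mem_ofPred_eq, h1]
  calc ‖a • Ch.C (y - toE R.q) + b • Ch.C (z - toE R.q)‖
      ≤ ‖a • Ch.C (y - toE R.q)‖ + ‖b • Ch.C (z - toE R.q)‖ := norm_add_le _ _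
    _ = a * ‖Ch.C (y - toE R.q)‖ + b * ‖Ch.C (z - toE R.q)‖ := by
        rw [norm_smul, norm_smul, Real.norm_of_nonneg ha, Real.norm_of_nonneg hb]
    _ ≤ a * ρ + b * ρ :=
        add_le_add (mul_le_mul_of_nonneg_left hy ha) (mul_le_mul_of_nonneg_left hz hb)
    _ = ρ := by rw [← add_mul, hab, one_mul]

private theorem B_inj_Sign {H : Hyp S F} {R' R'' : RP S F} {C' : Chart E₁ E₂ H R'}
    {C'' : Chart E₁ E₂ H R''} {ρ' ρ'' κ' κ'' : ℝ} (B' : Box C' ρ' κ') (B'' : Box C'' ρ'' κ'')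
    {P₀ S' S'' T' T'' : E r k →L[ℝ] E r k} {x' x'' : X r k} (hx' : ‖C'.c x'‖ ≤ ρ')
    (hx'' : ‖C''.c x''‖ ≤ ρ'') (h0 : P₀ * P₀ = P₀) (hS' : H.P x' * S' = S' * P₀)
    (hS'' : H.P x'' * S'' = S'' * P₀) (hT' : T' * S' = 1) (hT'' : T'' * S'' = 1) (v : E r k)
    (hv : L_Sign (C'.C : E r k →L[ℝ] E₁ × E₂) (C''.C : E r k →L[ℝ] E₁ × E₂) (S' * P₀)
      (S'' * (1 - P₀)) v = 0) : v = 0 := by
  rw [L_apply_Sign, Prod.mk_eq_zero] at hv
  have h1 : (C'.C (S' (P₀ v))).1 = 0 := hv.1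
  have h2 : (C''.C (S'' ((1 - P₀) v))).2 = 0 := hv.2
  have e0 : P₀ (P₀ v) = P₀ v := DFunLike.congr_fun h0 v
  have e1 : H.P x' (S' (P₀ v)) = S' (P₀ v) := by
    have h3 : H.P x' (S' (P₀ v)) = S' (P₀ (P₀ v)) := DFunLike.congr_fun hS' (P₀ v)
    rw [h3, e0]
  have e2 : H.P x'' (S'' ((1 - P₀) v)) = 0 := by
    have h3 : H.P x'' (S'' ((1 - P₀) v)) = S'' (P₀ ((1 - P₀) v)) :=
      DFunLike.congr_fun hS'' ((1 - P₀) v)
    have h4 : P₀ ((1 - P₀) v) = 0 := by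
      show P₀ (v - P₀ v) = 0
      rw [map_sub, e0, sub_self]
    rw [h3, h4, map_zero]
  have e3 : S' (P₀ v) = 0 := by
    have h3 := B'.inj_u x' hx' _ e1
    have h4 : (C'.C (S' (P₀ v))).1 = 0 := h1
    rw [h4, norm_zero, mul_zero] at h3
    exact norm_le_zero_iff.1 h3
  have e4 : S'' ((1 - P₀) v) = 0 := by
    have h3 := B''.inj_s x'' hx'' _ e2
    have h4 : (C''.C (S'' ((1 - P₀) v))).2 = 0 := h2
    rw [h4, norm_zero, mul_zero] at h3
    exact norm_le_zero_iff.1 h3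
  have e5 : P₀ v = 0 := by
    have h3 : T' (S' (P₀ v)) = P₀ v := DFunLike.congr_fun hT' (P₀ v)
    rw [← h3, e3, map_zero]
  have e6 : (1 - P₀) v = 0 := by
    have h3 : T'' (S'' ((1 - P₀) v)) = (1 - P₀) v := DFunLike.congr_fun hT'' ((1 - P₀) v)
    rw [← h3, e4, map_zero]
  have e7 : v = P₀ v + (1 - P₀) v := by
    show v = P₀ v + (v - P₀ v)
    abel
  rw [e7, e5, e6, add_zero]

/-- the signs for `t = 0` and `t = 1` -/
private theorem path_Sign {c' c'' : E r k →L[ℝ] E₁ × E₂} {A' A'' P : E r k →L[ℝ] E r k}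
    (C₀ : E r k ≃L[ℝ] E₁ × E₂)
    (h : ∀ t ∈ Icc (0 : ℝ) 1, ∀ v : E r k, (c' (A' (P v + (1 - t) • (v - P v)))).1 = 0 →
      (c'' (A'' ((v - P v) + (1 - t) • P v))).2 = 0 → v = 0) :
    (L_Sign c' c'' A' A'' ∘L (C₀.symm : E₁ × E₂ →L[ℝ] E r k)).det ≠ 0 ∧
    SignType.sign (L_Sign c' c'' A' A'' ∘L (C₀.symm : E₁ × E₂ →L[ℝ] E r k)).det =
      SignType.sign (L_Sign c' c'' (A' * P) (A'' * (1 - P)) ∘L
        (C₀.symm : E₁ × E₂ →L[ℝ] E r k)).det := by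
  have hc : ContinuousOn (fun t : ℝ => (L_Sign c' c'' (A' * (P + (1 - t) • (1 - P)))
      (A'' * ((1 - P) + (1 - t) • P)) ∘L (C₀.symm : E₁ × E₂ →L[ℝ] E r k)).det) (Icc 0 1) := by
    refine Continuous.continuousOn (SmoothDegree.continuous_clm_det.comp ?_)
    refine Continuous.clm_comp ?_ continuous_const
    unfold L_Sign
    refine Continuous.add (Continuous.clm_comp continuous_const
      (Continuous.clm_comp continuous_const ?_)) (Continuous.clm_comp continuous_const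
      (Continuous.clm_comp continuous_const ?_))
    · refine continuous_const.mul (continuous_const.add ?_)
      fun_prop
    · refine continuous_const.mul (continuous_const.add ?_)
      fun_prop
  have hn : ∀ t ∈ Icc (0 : ℝ) 1, (L_Sign c' c'' (A' * (P + (1 - t) • (1 - P)))
      (A'' * ((1 - P) + (1 - t) • P)) ∘L (C₀.symm : E₁ × E₂ →L[ℝ] E r k)).det ≠ 0 := by
    intro t ht
    refine det_ne_Sign fun z hz => ?_
    have h1 : L_Sign c' c'' (A' * (P + (1 - t) • (1 - P))) (A'' * ((1 - P) + (1 - t) • P))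
      (C₀.symm z) = 0 := hz
    rw [L_apply_Sign, Prod.mk_eq_zero] at h1
    have h2 := h t ht (C₀.symm z) h1.1 h1.2
    exact (C₀.symm.map_eq_zero_iff).1 h2
  have e0 : P + (1 - (0 : ℝ)) • (1 - P) = 1 := by
    rw [sub_zero, one_smul]
    abel
  have e0' : (1 - P) + (1 - (0 : ℝ)) • P = 1 := by
    rw [sub_zero, one_smul]
    abel
  have e1 : P + (1 - (1 : ℝ)) • (1 - P) = P := by
    refine ContinuousLinearMap.ext fun v => ?_
    show P v + (1 - (1 : ℝ)) • ((1 - P) v) = P v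
    rw [sub_self, zero_smul, add_zero]
  have e1' : (1 - P) + (1 - (1 : ℝ)) • P = 1 - P := by
    refine ContinuousLinearMap.ext fun v => ?_
    show (1 - P) v + (1 - (1 : ℝ)) • (P v) = (1 - P) v
    rw [sub_self, zero_smul, add_zero]
  have h2 := ANO.Idx.sign_eq_of_path hc hn
  have h3 := hn 0 ⟨le_rfl, zero_le_one⟩
  beta_reduce at h2
  rw [e0, e0', e1, e1', mul_one, mul_one] at h2
  rw [e0, e0', mul_one, mul_one] at h3
  exact ⟨h3, h2⟩

private theorem natAbs_Sign {a : ℝ} (ha : a ≠ 0) : ((SignType.sign a : ℤ)).natAbs = 1 := by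
  rcases lt_or_gt_of_ne ha with h | h
  · rw [sign_neg h]
    rfl
  · rw [sign_pos h]
    rfl

theorem sign_G {H : Hyp S F} {R' R'' : RP S F} (C' : Chart E₁ E₂ H R') (C'' : Chart E₁ E₂ H R'')
    {ρ' ρ'' κ' κ'' : ℝ} (B' : Box C' ρ' κ') (B'' : Box C'' ρ'' κ'')
    (C₀ : E r k ≃L[ℝ] E₁ × E₂) :
    ∃ n₀ : ℕ, ∀ n, n₀ ≤ n → ∃ σ : ℤ, σ.natAbs = 1 ∧ ∀ x ∈ Om C' C'' ρ' ρ'' n,
      jacobianSign (hat C₀ (G C' C'' n)) (C₀ (toE x)) = σ := by
  obtain ⟨n₀, hn₀⟩ := inj_G C' C'' B' B''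
  refine ⟨n₀, fun n hn => ?_⟩
  have hinj := hn₀ n hn
  rcases (Om C' C'' ρ' ρ'' n).eq_empty_or_nonempty with hO | ⟨x₁, hx₁⟩
  · exact ⟨1, rfl, fun x hx => absurd hx (by rw [hO]; exact notMem_empty x)⟩
  set c' : E r k →L[ℝ] E₁ × E₂ := (C'.C : E r k →L[ℝ] E₁ × E₂) with hc'
  set c'' : E r k →L[ℝ] E₁ × E₂ := (C''.C : E r k →L[ℝ] E₁ × E₂) with hc''
  have hT'c : Continuous (R'.T^[n]) := R'.T.continuous.iterate n
  have hT''c : Continuous (R''.T.symm^[n]) := R''.T.symm.continuous.iterate n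
  -- the sets
  obtain ⟨ρ₀, hρ₀⟩ := (B'.compact.image
    (R'.T.symm.continuous.iterate n)).isBounded.subset_closedBall x₁
  have hOm : ∀ x ∈ Om C' C'' ρ' ρ'' n, x ∈ Metric.closedBall x₁ ρ₀ := fun x hx =>
    hρ₀ ⟨R'.T^[n] x, hx.1, R'.symm_iter n x⟩
  have hK₀ : IsCompact (Metric.closedBall x₁ ρ₀) := isCompact_closedBall _ _
  obtain ⟨ρ₁, hρ₁⟩ := ((((hK₀.union (hK₀.image hT'c)).union (hK₀.image hT''c)).union
    B'.compact).union B''.compact).isBounded.subset_closedBall x₁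
  have hr1 : Metric.closedBall x₁ ρ₀ ⊆ Metric.closedBall x₁ ρ₁ := fun x hx =>
    hρ₁ (Or.inl (Or.inl (Or.inl (Or.inl hx))))
  have hr2 : ∀ x ∈ Metric.closedBall x₁ ρ₀, R'.T^[n] x ∈ Metric.closedBall x₁ ρ₁ := fun x hx =>
    hρ₁ (Or.inl (Or.inl (Or.inl (Or.inr ⟨x, hx, rfl⟩))))
  have hr3 : ∀ x ∈ Metric.closedBall x₁ ρ₀, R''.T.symm^[n] x ∈ Metric.closedBall x₁ ρ₁ :=
    fun x hx => hρ₁ (Or.inl (Or.inl (Or.inr ⟨x, hx, rfl⟩)))
  have hr4 : ∀ x, ‖C'.c x‖ ≤ ρ' → x ∈ Metric.closedBall x₁ ρ₁ := fun x hx =>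
    hρ₁ (Or.inl (Or.inr hx))
  have hr5 : ∀ x, ‖C''.c x‖ ≤ ρ'' → x ∈ Metric.closedBall x₁ ρ₁ := fun x hx =>
    hρ₁ (Or.inr hx)
  have hd0 : toE '' Metric.closedBall x₁ ρ₀ ⊆ dom r k := by
    rintro _ ⟨p, -, rfl⟩
    exact ANO.Idx.toE_mem p
  have hd1 : toE '' Metric.closedBall x₁ ρ₁ ⊆ dom r k := by
    rintro _ ⟨p, -, rfl⟩
    exact ANO.Idx.toE_mem p
  have hx₁0 := hOm x₁ hx₁
  -- the trivialisation
  obtain ⟨Sf, Rf, hSc, hRc, hSR, hRS, hPS⟩ := ANO.Idx.exists_triv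
    (ANO.Idx.compact_ball x₁ ρ₁) (ANO.Idx.convex_ball x₁ ρ₁) (P := fun x => H.P (ofE x))
    (H.cont.comp_continuousOn (ANO.Idx.continuousOn_ofE.mono hd1))
    (fun x _ => H.proj (ofE x)) (x₀ := toE x₁) ⟨x₁, hr1 hx₁0, rfl⟩
  rw [ANO.Idx.ofE_toE] at hPS
  set P₀ : E r k →L[ℝ] E r k := H.P x₁ with hP₀
  have hPP : P₀ * P₀ = P₀ := H.proj x₁
  have k1 : ∀ x ∈ Metric.closedBall x₁ ρ₁, Sf (toE x) * Rf (toE x) = 1 := fun x hx =>
    hSR _ ⟨x, hx, rfl⟩
  have k2 : ∀ x ∈ Metric.closedBall x₁ ρ₁, Rf (toE x) * Sf (toE x) = 1 := fun x hx =>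
    hRS _ ⟨x, hx, rfl⟩
  have k3 : ∀ x ∈ Metric.closedBall x₁ ρ₁, H.P x * Sf (toE x) = Sf (toE x) * P₀ := by
    intro x hx
    have h := hPS (toE x) ⟨x, hx, rfl⟩
    rw [ANO.Idx.ofE_toE] at h
    exact h
  have k4 : ∀ x ∈ Metric.closedBall x₁ ρ₁, Rf (toE x) * H.P x = P₀ * Rf (toE x) := fun x hx =>
    R_comm_Sign (k1 x hx) (k2 x hx) (k3 x hx)
  -- the three functions
  set d : (E₁ × E₂ →L[ℝ] E₁ × E₂) → ℝ := fun f => f.det with hd
  have hdc : Continuous d := SmoothDegree.continuous_clm_det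
  set f1 : E r k → ℝ := fun y => d ((C₀ : E r k →L[ℝ] E₁ × E₂) ∘L Rf y ∘L
    (C₀.symm : E₁ × E₂ →L[ℝ] E r k)) with hf1
  set J : E r k → (E r k →L[ℝ] E r k) := fun y =>
    Rf (loc R'.T^[n] y) * tmap R'.T^[n] (ofE y) * Sf y * P₀ +
      Rf (loc R''.T.symm^[n] y) * tmap R''.T.symm^[n] (ofE y) * Sf y * (1 - P₀) with hJ
  set f2 : E r k → ℝ := fun y => d ((C₀ : E r k →L[ℝ] E₁ × E₂) ∘L J y ∘L
    (C₀.symm : E₁ × E₂ →L[ℝ] E r k)) with hf2
  set f3 : E r k × E r k → ℝ := fun y => d (L_Sign c' c'' (Sf y.1 * P₀) (Sf y.2 * (1 - P₀)) ∘L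
    (C₀.symm : E₁ × E₂ →L[ℝ] E r k)) with hf3
  have hf1c : ContinuousOn f1 (toE '' Metric.closedBall x₁ ρ₁) :=
    hdc.comp_continuousOn (continuousOn_const.clm_comp (hRc.clm_comp continuousOn_const))
  have hf1n : ∀ y ∈ toE '' Metric.closedBall x₁ ρ₁, f1 y ≠ 0 := by
    rintro _ ⟨x, hx, rfl⟩
    refine det_ne_Sign fun z hz => ?_
    have h1 : C₀ (Rf (toE x) (C₀.symm z)) = 0 := hz
    have h2 : Rf (toE x) (C₀.symm z) = 0 := (C₀.map_eq_zero_iff).1 h1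
    have h3 : Sf (toE x) (Rf (toE x) (C₀.symm z)) = C₀.symm z :=
      DFunLike.congr_fun (k1 x hx) _
    rw [h2, map_zero] at h3
    exact (C₀.symm.map_eq_zero_iff).1 h3.symm
  have hSc0 : ContinuousOn Sf (toE '' Metric.closedBall x₁ ρ₀) := hSc.mono (image_mono hr1)
  have hm' : MapsTo (loc R'.T^[n]) (toE '' Metric.closedBall x₁ ρ₀)
      (toE '' Metric.closedBall x₁ ρ₁) := by
    rintro _ ⟨x, hx, rfl⟩
    rw [ANO.Idx.loc_toE]
    exact ⟨_, hr2 x hx, rfl⟩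
  have hm'' : MapsTo (loc R''.T.symm^[n]) (toE '' Metric.closedBall x₁ ρ₀)
      (toE '' Metric.closedBall x₁ ρ₁) := by
    rintro _ ⟨x, hx, rfl⟩
    rw [ANO.Idx.loc_toE]
    exact ⟨_, hr3 x hx, rfl⟩
  have hs' := (iter_smooth H R' n).1
  have hs'' := (iter_smooth H R'' n).2
  have hof : ContinuousOn (ofE : E r k → X r k) (toE '' Metric.closedBall x₁ ρ₀) :=
    ANO.Idx.continuousOn_ofE.mono hd0
  have hJc : ContinuousOn J (toE '' Metric.closedBall x₁ ρ₀) := by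
    refine ContinuousOn.add ?_ ?_
    · exact (((hRc.comp (hs'.continuousOn.mono hd0) hm').mul
        ((ANO.Idx.continuous_tmap hs').comp_continuousOn hof)).mul hSc0).mul continuousOn_const
    · exact (((hRc.comp (hs''.continuousOn.mono hd0) hm'').mul
        ((ANO.Idx.continuous_tmap hs'').comp_continuousOn hof)).mul hSc0).mul
          continuousOn_const
  have hf2c : ContinuousOn f2 (toE '' Metric.closedBall x₁ ρ₀) :=
    hdc.comp_continuousOn (continuousOn_const.clm_comp (hJc.clm_comp continuousOn_const))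
  have hJx : ∀ x, J (toE x) =
      Rf (toE (R'.T^[n] x)) * tmap R'.T^[n] x * Sf (toE x) * P₀ +
      Rf (toE (R''.T.symm^[n] x)) * tmap R''.T.symm^[n] x * Sf (toE x) * (1 - P₀) := by
    intro x
    show Rf (loc R'.T^[n] (toE x)) * tmap R'.T^[n] (ofE (toE x)) * Sf (toE x) * P₀ +
      Rf (loc R''.T.symm^[n] (toE x)) * tmap R''.T.symm^[n] (ofE (toE x)) * Sf (toE x) *
        (1 - P₀) = _
    rw [ANO.Idx.loc_toE, ANO.Idx.loc_toE, ANO.Idx.ofE_toE]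
  have hf2n : ∀ y ∈ toE '' Metric.closedBall x₁ ρ₀, f2 y ≠ 0 := by
    rintro _ ⟨x, hx, rfl⟩
    refine det_ne_Sign fun z hz => ?_
    have h1 : C₀ (J (toE x) (C₀.symm z)) = 0 := hz
    have h2 : J (toE x) (C₀.symm z) = 0 := (C₀.map_eq_zero_iff).1 h1
    rw [hJx] at h2
    have hSi : ∀ v, Sf (toE x) v = 0 → v = 0 := by
      intro v hv
      have h3 : Rf (toE x) (Sf (toE x) v) = v := DFunLike.congr_fun (k2 x (hr1 hx)) v
      rw [← h3, hv, map_zero]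
    have hRi : ∀ y ∈ Metric.closedBall x₁ ρ₁, ∀ v, Rf (toE y) v = 0 → v = 0 := by
      intro y hy v hv
      have h3 : Sf (toE y) (Rf (toE y) v) = v := DFunLike.congr_fun (k1 y hy) v
      rw [← h3, hv, map_zero]
    have h3 := J_inj_Sign hPP (k3 x (hr1 hx)) (k4 _ (hr2 x hx)) (k4 _ (hr3 x hx))
      (iter_comm H R' n x).1 (iter_comm H R'' n x).2
      (fun v hv => hSi _ (inj_Sign (iter_det H R' n x).1 (hRi _ (hr2 x hx) _ hv)))
      (fun v hv => hSi _ (inj_Sign (iter_det H R'' n x).2 (hRi _ (hr3 x hx) _ hv))) _ h2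
    exact (C₀.symm.map_eq_zero_iff).1 h3
  have hb1 : toE '' {x : X r k | ‖C'.c x‖ ≤ ρ'} ⊆ toE '' Metric.closedBall x₁ ρ₁ :=
    image_mono fun x hx => hr4 x hx
  have hb2 : toE '' {x : X r k | ‖C''.c x‖ ≤ ρ''} ⊆ toE '' Metric.closedBall x₁ ρ₁ :=
    image_mono fun x hx => hr5 x hx
  have hf3c : ContinuousOn f3 ((toE '' {x : X r k | ‖C'.c x‖ ≤ ρ'}) ×ˢ
      (toE '' {x : X r k | ‖C''.c x‖ ≤ ρ''})) := by
    have g1 : ContinuousOn (fun y : E r k × E r k => Sf y.1)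
        ((toE '' {x : X r k | ‖C'.c x‖ ≤ ρ'}) ×ˢ (toE '' {x : X r k | ‖C''.c x‖ ≤ ρ''})) :=
      hSc.comp continuous_fst.continuousOn fun y hy => hb1 hy.1
    have g2 : ContinuousOn (fun y : E r k × E r k => Sf y.2)
        ((toE '' {x : X r k | ‖C'.c x‖ ≤ ρ'}) ×ˢ (toE '' {x : X r k | ‖C''.c x‖ ≤ ρ''})) :=
      hSc.comp continuous_snd.continuousOn fun y hy => hb2 hy.2
    refine hdc.comp_continuousOn (ContinuousOn.clm_comp ?_ continuousOn_const)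
    unfold L_Sign
    exact (continuousOn_const.clm_comp (continuousOn_const.clm_comp
      (g1.mul continuousOn_const))).add (continuousOn_const.clm_comp
      (continuousOn_const.clm_comp (g2.mul continuousOn_const)))
  have hf3n : ∀ y ∈ ((toE '' {x : X r k | ‖C'.c x‖ ≤ ρ'}) ×ˢ
      (toE '' {x : X r k | ‖C''.c x‖ ≤ ρ''})), f3 y ≠ 0 := by
    rintro ⟨_, _⟩ ⟨⟨x, hx, rfl⟩, ⟨x', hx', rfl⟩⟩
    refine det_ne_Sign fun z hz => ?_
    have h3 := B_inj_Sign B' B'' hx hx' hPP (k3 x (hr4 x hx)) (k3 x' (hr5 x' hx'))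
      (k2 x (hr4 x hx)) (k2 x' (hr5 x' hx')) (C₀.symm z) hz
    exact (C₀.symm.map_eq_zero_iff).1 h3
  -- the product formula
  have key : ∀ x ∈ Om C' C'' ρ' ρ'' n,
      d (L_Sign c' c'' (tmap R'.T^[n] x * H.P x) (tmap R''.T.symm^[n] x * (1 - H.P x)) ∘L
        (C₀.symm : E₁ × E₂ →L[ℝ] E r k)) =
      f3 (toE (R'.T^[n] x), toE (R''.T.symm^[n] x)) * (f2 (toE x) * f1 (toE x)) := by
    intro x hx
    have hx0 := hOm x hx
    obtain ⟨e1, e2⟩ := alg_Sign hPP (k3 x (hr1 hx0)) (k4 _ (hr2 x hx0)) (k4 _ (hr3 x hx0))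
      (iter_comm H R' n x).1 (iter_comm H R'' n x).2
    rw [← hJx x] at e1 e2
    have e3 : Sf (toE (R'.T^[n] x)) * P₀ * J (toE x) * Rf (toE x) =
        tmap R'.T^[n] x * H.P x := by
      rw [mul_assoc _ P₀, e1]
      exact cancel_Sign (k1 _ (hr2 x hx0)) (k3 x (hr1 hx0)) (k1 x (hr1 hx0))
    have e4 : Sf (toE (R''.T.symm^[n] x)) * (1 - P₀) * J (toE x) * Rf (toE x) =
        tmap R''.T.symm^[n] x * (1 - H.P x) := by
      rw [mul_assoc _ (1 - P₀), e2]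
      exact cancel2_Sign (k1 _ (hr3 x hx0)) (k3 x (hr1 hx0)) (k1 x (hr1 hx0))
    rw [← e3, ← e4, hf1, hf2, hf3, hd]
    beta_reduce
    rw [← det_mul_Sign, ← det_mul_Sign]
    congr 1
    refine ContinuousLinearMap.ext fun z => ?_
    show L_Sign c' c'' _ _ (C₀.symm z) = L_Sign c' c'' _ _
      (C₀.symm (C₀ (J (toE x) (C₀.symm (C₀ (Rf (toE x) (C₀.symm z)))))))
    rw [C₀.symm_apply_apply, C₀.symm_apply_apply, L_apply_Sign, L_apply_Sign]
    rfl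
  have key2 : ∀ x ∈ Om C' C'' ρ' ρ'' n,
      (L_Sign c' c'' (tmap R'.T^[n] x) (tmap R''.T.symm^[n] x) ∘L
        (C₀.symm : E₁ × E₂ →L[ℝ] E r k)).det ≠ 0 ∧
      SignType.sign (L_Sign c' c'' (tmap R'.T^[n] x) (tmap R''.T.symm^[n] x) ∘L
        (C₀.symm : E₁ × E₂ →L[ℝ] E r k)).det =
      SignType.sign (f3 (toE (R'.T^[n] x), toE (R''.T.symm^[n] x))) *
        (SignType.sign (f2 (toE x)) * SignType.sign (f1 (toE x))) := by
    intro x hx
    obtain ⟨h1, h2⟩ := path_Sign (c' := c') (c'' := c'') (A' := tmap R'.T^[n] x)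
      (A'' := tmap R''.T.symm^[n] x) (P := H.P x) C₀ fun t ht v h1 h2 =>
        hinj x hx t ht v h1 h2
    refine ⟨h1, ?_⟩
    rw [h2]
    have h3 := key x hx
    rw [← sign_mul, ← sign_mul, ← h3]
  refine ⟨(SignType.sign (L_Sign c' c'' (tmap R'.T^[n] x₁) (tmap R''.T.symm^[n] x₁) ∘L
        (C₀.symm : E₁ × E₂ →L[ℝ] E r k)).det : ℤ), natAbs_Sign (key2 x₁ hx₁).1,
        fun x hx => ?_⟩
  unfold jacobianSign
  rw [(deriv_Sign C' C'' C₀ n x).fderiv]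
  have hx0 := hOm x hx
  have s1 : SignType.sign (f1 (toE x)) = SignType.sign (f1 (toE x₁)) :=
    sign_conv_Sign (ANO.Idx.convex_ball x₁ ρ₁) hf1c hf1n ⟨x, hr1 hx0, rfl⟩ ⟨x₁, hr1 hx₁0, rfl⟩
  have s2 : SignType.sign (f2 (toE x)) = SignType.sign (f2 (toE x₁)) :=
    sign_conv_Sign (ANO.Idx.convex_ball x₁ ρ₀) hf2c hf2n ⟨x, hx0, rfl⟩ ⟨x₁, hx₁0, rfl⟩
  have s3 : SignType.sign (f3 (toE (R'.T^[n] x), toE (R''.T.symm^[n] x))) =
      SignType.sign (f3 (toE (R'.T^[n] x₁), toE (R''.T.symm^[n] x₁))) :=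
    sign_conv_Sign ((convex_box_Sign B').prod (convex_box_Sign B'')) hf3c hf3n
      ⟨⟨_, hx.1, rfl⟩, ⟨_, hx.2, rfl⟩⟩ ⟨⟨_, hx₁.1, rfl⟩, ⟨_, hx₁.2, rfl⟩⟩
  have s4 : SignType.sign (L_Sign c' c'' (tmap R'.T^[n] x) (tmap R''.T.symm^[n] x) ∘L
        (C₀.symm : E₁ × E₂ →L[ℝ] E r k)).det =
      SignType.sign (L_Sign c' c'' (tmap R'.T^[n] x₁) (tmap R''.T.symm^[n] x₁) ∘L
        (C₀.symm : E₁ × E₂ →L[ℝ] E r k)).det := by
    rw [(key2 x hx).2, (key2 x₁ hx₁).2, s1, s2, s3]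
  rw [s4]

end Pool.Agent.ANO3.Conn
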