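import Pool.Agent.ANO3.Conn.DegX
import Pool.Agent.ANO3.Conn.Loc
import Pool.Agent.ANO3.Conn.Sign
import Pool.Agent.ANO3.Conn.Lim

/-!
# ANO3, module Conn: the number of connections (package CONN-COUNT)

Fix `n` larger than the numbers of `sign_G`, `zeros_in`, `faces`. Put `M = Om n` (compact),
`N = closedBall 0 ρ' ×ˢ closedBall 0 ρ''`, `G = G_n`, `Ĝ = hat C₀ G`, `j x = C₀ (toE x)`,
`M̂ = hatS C₀ M = j '' M`.

(1) `G` maps `M` into `N`. If `x ∈ frontier M` then `G x ∉ interior N`: otherwise `‖(c' y').1‖ <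
ρ'`, `‖(c'' y'').2‖ < ρ''` (`y' = T'^[n] x`, `y'' = T''.symm^[n] x`, `interior_prod_eq`,
`interior_closedBall`), and by `faces` all four norms are smaller than the radii, so `x` is in the
open set `{‖c' (T'^[n] x)‖ < ρ', ‖c'' (T''.symm^[n] x)‖ < ρ''} ⊆ M` (`Prod.norm_def`, `max_lt`). (2)
`Deg.card_const` and `Deg.deg_comp` for `Ĝ`, `M̂`, `N`, the function `f z = Θ (psiU C' z.1, psiS C''
z.2)`: it is admissible on `N` (`psiU` is continuous near the ball and nonzero on the sphere by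
`Box.a_ne`; the points are `c' x = (v, 0)`; in the same way `psiS`), so `deg (f ∘ Ĝ) M̂ = σ m (deg f
N) = σ m dloc`, where `m = ncard (M̂ ∩ Ĝ ⁻¹' {y})` for every `y` in the interior of `N`. (3)
Homotopy on `M`: `H_t x = Θ (a' (ofE (toE q' + C'.symm (v', (1-t) w'))), b'' (ofE (toE q'' +
C''.symm ((1-t) v'', w''))))` with `(v', w') = c' y'`, `(v'', w'') = c'' y''`. For `t = 1` it is `f
∘ G`, for `t = 0` it is `x ↦ Θ (a' y', b'' y'')`. On the frontier of `M` we have `G x ∈ frontier N`,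
so `‖v'‖ = ρ'`, and then the first component is not zero (`Box.a_ne`), or `‖w''‖ = ρ''`, and the
second component is not zero (`Box.b_ne`). (`Deg.deg_homotopy` on the open set of the `j x` with
`‖c' y'‖ < ρ' + ε`, `‖c'' y''‖ < ρ'' + ε` on which everything is defined; or use points: everything
is continuous as long as the arguments are in `dom r k`, an open condition. It is easier to extend:
`ofE` is continuous on the open set `dom r k`, the set of the `(t, x)` for which both arguments are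
in `dom r k` is open and contains `[0,1] × M`, so by the tube lemma (`generalized_tube_lemma`) there
is an open `V ⊇ M̂` as required.) (4) By `RP.a_iter`: `a' y' i = c (sa' i ^ n * a' x i)` with `c >
0`, and by `RP.b_iter` at `y''` `b'' x i = c (sb'' i ^ n * b'' y'' i)`, so `b'' y'' i = c⁻¹ (sb'' i
^ n * b'' x i)` (`(sb'' i ^ n) ^ 2 = 1`). Let `Λ` be the diagonal isomorphism of `A r × A r` with
the entries `sa' i ^ n`, `sb'' i ^ n` (`± 1`). The straight homotopy from `Λ (a' x, b'' x)` to `(a'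
y', b'' y'')` multiplies every component by a positive number, so it vanishes at `x` only if `a' x =
0 = b'' x`, which does not happen on the frontier of `M` (`zeros_in`). And `Θ ∘ Λ ∘ Θ.symm` is a
linear isomorphism of `E₁ × E₂`: `Deg.deg_comp_left`, `Deg.natAbs_sign_det`. (5) `degX C₀ (Θ (a',
b'')) K = degX C₀ (Θ (a', b'')) M` by `degX_excision`: all zeros are in the interior of `M`
(`zeros_in`). (6) If there is a zero `x` then `x ∈ M` and `y = G x ∈ interior N`, so `m > 0`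
(`Set.ncard_pos`, the set is finite by `card_const`). -/

set_option autoImplicit false

open Set Filter Topology
open Pool.Agent.SmoothDegree

namespace Pool.Agent.ANO3.Conn

open Pool.Agent.ANO Pool.Agent.ANO2

variable {r k : ℕ} {S : Fin r → ClosedSurface} {F : X r k ≃ₜ X r k}
variable {E₁ E₂ : Type} [NormedAddCommGroup E₁] [NormedSpace ℝ E₁]
  [NormedAddCommGroup E₂] [NormedSpace ℝ E₂] [FiniteDimensional ℝ E₁] [FiniteDimensional ℝ E₂]
  [Nontrivial (E₁ × E₂)]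

/-- the radial retraction to the ball -/
private noncomputable def ret_Count {W : Type} [NormedAddCommGroup W] [NormedSpace ℝ W] (ρ : ℝ)
    (v : W) : W :=
  (ρ / max ρ ‖v‖) • v

private theorem ret_cont_Count {W : Type} [NormedAddCommGroup W] [NormedSpace ℝ W] {ρ : ℝ}
    (h : 0 < ρ) : Continuous (ret_Count ρ : W → W) := by
  unfold ret_Count
  refine Continuous.smul (continuous_const.div (continuous_const.max continuous_norm)
    fun v => ?_) continuous_id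
  exact (lt_of_lt_of_le h (le_max_left _ _)).ne'

private theorem ret_norm_Count {W : Type} [NormedAddCommGroup W] [NormedSpace ℝ W] {ρ : ℝ}
    (h : 0 < ρ) (v : W) : ‖ret_Count ρ v‖ ≤ ρ := by
  unfold ret_Count
  have h1 : 0 < max ρ ‖v‖ := lt_of_lt_of_le h (le_max_left _ _)
  rw [norm_smul, Real.norm_of_nonneg (by positivity), div_mul_eq_mul_div, div_le_iff₀ h1]
  exact mul_le_mul_of_nonneg_left (le_max_right _ _) h.le

private theorem ret_self_Count {W : Type} [NormedAddCommGroup W] [NormedSpace ℝ W] {ρ : ℝ}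
    (h : 0 < ρ) {v : W} (hv : ‖v‖ ≤ ρ) : ret_Count ρ v = v := by
  unfold ret_Count
  rw [max_eq_left hv, div_self h.ne', one_smul]

omit [FiniteDimensional ℝ E₁] [FiniteDimensional ℝ E₂] [Nontrivial (E₁ × E₂)] in
private theorem mem_dom_Count {H : Hyp S F} {R : RP S F} {Ch : Chart E₁ E₂ H R} {ρ κ : ℝ}
    (B : Box Ch ρ κ) {v : E₁ × E₂} (hv : ‖v‖ ≤ ρ) : toE R.q + Ch.C.symm v ∈ dom r k := by
  obtain ⟨x, hx⟩ := B.surj v hv
  have h1 : toE R.q + Ch.C.symm v = toE x := by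
    rw [← hx, Chart.c, ContinuousLinearEquiv.symm_apply_apply]
    abel
  rw [h1]
  exact Idx.toE_mem x

omit [FiniteDimensional ℝ E₁] [FiniteDimensional ℝ E₂] [Nontrivial (E₁ × E₂)] in
private theorem c_pt_Count {H : Hyp S F} {R : RP S F} {Ch : Chart E₁ E₂ H R} {ρ κ : ℝ}
    (B : Box Ch ρ κ) {v : E₁ × E₂} (hv : ‖v‖ ≤ ρ) :
    Ch.c (ofE (toE R.q + Ch.C.symm v)) = v := by
  rw [Chart.c, Idx.toE_ofE (mem_dom_Count B hv), add_sub_cancel_left,
    ContinuousLinearEquiv.apply_symm_apply]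

omit [FiniteDimensional ℝ E₁] [FiniteDimensional ℝ E₂] [Nontrivial (E₁ × E₂)] in
private theorem pt_c_Count {H : Hyp S F} {R : RP S F} (Ch : Chart E₁ E₂ H R) (x : X r k) :
    ofE (toE R.q + Ch.C.symm (Ch.c x)) = x := by
  rw [Chart.c, ContinuousLinearEquiv.symm_apply_apply, add_sub_cancel, Idx.ofE_toE]

/-- the point with the coordinates `v` -/
private noncomputable def pt_Count {H : Hyp S F} {R : RP S F} (Ch : Chart E₁ E₂ H R) (ρ : ℝ)
    (v : E₁ × E₂) : X r k :=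
  ofE (toE R.q + Ch.C.symm (ret_Count ρ v))

omit [FiniteDimensional ℝ E₁] [FiniteDimensional ℝ E₂] [Nontrivial (E₁ × E₂)] in
private theorem pt_cont_Count {H : Hyp S F} {R : RP S F} {Ch : Chart E₁ E₂ H R} {ρ κ : ℝ}
    (B : Box Ch ρ κ) : Continuous (pt_Count Ch ρ) := by
  unfold pt_Count
  refine Idx.continuousOn_ofE.comp_continuous ?_
    fun v => mem_dom_Count B (ret_norm_Count B.pos v)
  exact continuous_const.add (Ch.C.symm.continuous.comp (ret_cont_Count B.pos))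

omit [FiniteDimensional ℝ E₁] [FiniteDimensional ℝ E₂] [Nontrivial (E₁ × E₂)] in
private theorem pt_eq_Count {H : Hyp S F} {R : RP S F} {Ch : Chart E₁ E₂ H R} {ρ κ : ℝ}
    (B : Box Ch ρ κ) {v : E₁ × E₂} (hv : ‖v‖ ≤ ρ) :
    pt_Count Ch ρ v = ofE (toE R.q + Ch.C.symm v) := by
  rw [pt_Count, ret_self_Count B.pos hv]

omit [Nontrivial (E₁ × E₂)] in
private theorem adm_Count (Θ : (A r × A r) ≃L[ℝ] E₁ × E₂) {H : Hyp S F} {R' R'' : RP S F}
    {C' : Chart E₁ E₂ H R'} {C'' : Chart E₁ E₂ H R''} {ρ' ρ'' κ' κ'' : ℝ} (B' : Box C' ρ' κ')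
    (B'' : Box C'' ρ'' κ'') : Deg.Adm (fun z : E₁ × E₂ => Θ (psiU C' z.1, psiS C'' z.2))
    (Metric.closedBall (0 : E₁) ρ' ×ˢ Metric.closedBall (0 : E₂) ρ'') where
  compact := (isCompact_closedBall 0 ρ').prod (isCompact_closedBall 0 ρ'')
  cont := by
    have h1 : Continuous fun z : E₁ × E₂ => toE R'.q + C'.C.symm (z.1, 0) := by fun_prop
    have h2 : Continuous fun z : E₁ × E₂ => toE R''.q + C''.C.symm (0, z.2) := by fun_prop
    refine ⟨{z | toE R'.q + C'.C.symm (z.1, 0) ∈ dom r k} ∩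
      {z | toE R''.q + C''.C.symm (0, z.2) ∈ dom r k},
      (Idx.isOpen_dom.preimage h1).inter (Idx.isOpen_dom.preimage h2), ?_, ?_⟩
    · rintro z ⟨hz1, hz2⟩
      have hz1' : ‖z.1‖ ≤ ρ' := by simpa using hz1
      have hz2' : ‖z.2‖ ≤ ρ'' := by simpa using hz2
      exact ⟨mem_dom_Count B' (by simpa [Prod.norm_def, B'.pos.le] using hz1'),
        mem_dom_Count B'' (by simpa [Prod.norm_def, B''.pos.le] using hz2')⟩
    · have h3 : ContinuousOn (fun z : E₁ × E₂ => psiU C' z.1)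
          ({z | toE R'.q + C'.C.symm (z.1, 0) ∈ dom r k} ∩
            {z | toE R''.q + C''.C.symm (0, z.2) ∈ dom r k}) :=
        R'.cont_a.comp_continuousOn (Idx.continuousOn_ofE.comp h1.continuousOn fun v hv => hv.1)
      have h4 : ContinuousOn (fun z : E₁ × E₂ => psiS C'' z.2)
          ({z | toE R'.q + C'.C.symm (z.1, 0) ∈ dom r k} ∩
            {z | toE R''.q + C''.C.symm (0, z.2) ∈ dom r k}) :=
        R''.cont_b.comp_continuousOn (Idx.continuousOn_ofE.comp h2.continuousOn fun v hv => hv.2)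
      exact Θ.continuous.comp_continuousOn (h3.prodMk h4)
  ne := fun z hz h0 => by
    have hcl : IsClosed (Metric.closedBall (0 : E₁) ρ' ×ˢ Metric.closedBall (0 : E₂) ρ'') :=
      Metric.isClosed_closedBall.prod Metric.isClosed_closedBall
    obtain ⟨hz1, hz2⟩ := hcl.frontier_subset hz
    have hz1' : ‖z.1‖ ≤ ρ' := by simpa using hz1
    have hz2' : ‖z.2‖ ≤ ρ'' := by simpa using hz2
    have h1 := (Θ.map_eq_zero_iff).1 h0
    have h2 : psiU C' z.1 = 0 := congrArg Prod.fst h1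
    have h3 : psiS C'' z.2 = 0 := congrArg Prod.snd h1
    have h4 : ‖((z.1, 0) : E₁ × E₂)‖ ≤ ρ' := by simpa [Prod.norm_def, B'.pos.le] using hz1'
    have h5 : ‖((0, z.2) : E₁ × E₂)‖ ≤ ρ'' := by simpa [Prod.norm_def, B''.pos.le] using hz2'
    refine hz.2 ?_
    rw [interior_prod_eq, interior_closedBall _ B'.pos.ne', interior_closedBall _ B''.pos.ne']
    refine ⟨?_, ?_⟩
    · rw [mem_ball_zero_iff]
      refine lt_of_le_of_ne hz1' fun h6 => ?_
      exact B'.a_ne _ (by rw [c_pt_Count B' h4]; exact h4) (by rw [c_pt_Count B' h4]; exact h6) h2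
    · rw [mem_ball_zero_iff]
      refine lt_of_le_of_ne hz2' fun h6 => ?_
      exact B''.b_ne _ (by rw [c_pt_Count B'' h5]; exact h5)
        (by rw [c_pt_Count B'' h5]; exact h6) h3

private theorem congr_Count {W : Type} [NormedAddCommGroup W] [NormedSpace ℝ W]
    [FiniteDimensional ℝ W] [Nontrivial W] {f f' : W → W} {N : Set W} (A : Deg.Adm f N)
    (A' : Deg.Adm f' N) (h : EqOn f f' N) : Deg.deg f N = Deg.deg f' N := by
  obtain ⟨V, hV, hNV, hf⟩ := A.cont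
  obtain ⟨V', hV', hNV', hf'⟩ := A'.cont
  have h1 := Deg.deg_homotopy (F := fun t x => f x + t • (f' x - f x)) A.compact (hV.inter hV')
    (subset_inter hNV hNV') ?_ ?_
  · simpa using h1
  · have e1 : ContinuousOn (fun p : ℝ × W => f p.2) (Icc 0 1 ×ˢ (V ∩ V')) :=
      hf.comp continuousOn_snd fun p hp => hp.2.1
    have e2 : ContinuousOn (fun p : ℝ × W => f' p.2) (Icc 0 1 ×ˢ (V ∩ V')) :=
      hf'.comp continuousOn_snd fun p hp => hp.2.2
    exact e1.add (continuousOn_fst.smul (e2.sub e1))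
  · intro t _ x hx
    have hxN : x ∈ N := A.compact.isClosed.frontier_subset hx
    have h2 := A.ne x hx
    have h3 : f x = f' x := h hxN
    simpa [← h3] using h2

private theorem diag_Count (s : A r) (hs : ∀ i, s i = 1 ∨ s i = -1) (n : ℕ) :
    ∃ Λ : A r ≃L[ℝ] A r, ∀ v i, Λ v i = s i ^ n * v i := by
  let L : A r →L[ℝ] A r :=
    ContinuousLinearMap.pi fun i => (s i ^ n) • ContinuousLinearMap.proj (R := ℝ) i
  have hL : ∀ v i, L v i = s i ^ n * v i := fun v i => by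
    simp [L]
  have h1 : ∀ i, s i ^ n * s i ^ n = 1 := fun i => by
    rcases hs i with h | h
    · rw [h, one_pow, one_mul]
    · rw [h, ← mul_pow]
      norm_num
  have h2 : Function.LeftInverse L L := fun v => by
    funext i
    rw [hL, hL, ← mul_assoc, h1, one_mul]
  exact ⟨ContinuousLinearEquiv.equivOfInverse L L h2 h2, fun v i => hL v i⟩

/-- the homotopy -/
private noncomputable def psi_Count {H : Hyp S F} {R' R'' : RP S F} (C' : Chart E₁ E₂ H R')
    (C'' : Chart E₁ E₂ H R'') (ρ' ρ'' : ℝ) (n : ℕ) (t : ℝ) (x : X r k) : A r × A r :=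
  (R'.a (pt_Count C' ρ' ((C'.c (R'.T^[n] x)).1, (1 - t) • (C'.c (R'.T^[n] x)).2)),
   R''.b (pt_Count C'' ρ'' ((1 - t) • (C''.c (R''.T.symm^[n] x)).1,
    (C''.c (R''.T.symm^[n] x)).2)))

omit [Nontrivial (E₁ × E₂)] in
private theorem psi_cont_Count {H : Hyp S F} {R' R'' : RP S F} {C' : Chart E₁ E₂ H R'}
    {C'' : Chart E₁ E₂ H R''} {ρ' ρ'' κ' κ'' : ℝ} (B' : Box C' ρ' κ') (B'' : Box C'' ρ'' κ'')
    (n : ℕ) : Continuous (fun p : ℝ × X r k => psi_Count C' C'' ρ' ρ'' n p.1 p.2) := by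
  have cT' : Continuous (fun x => C'.c (R'.T^[n] x)) :=
    C'.cont.comp (R'.T.continuous.iterate n)
  have cT'' : Continuous (fun x => C''.c (R''.T.symm^[n] x)) :=
    C''.cont.comp (R''.T.symm.continuous.iterate n)
  have e1 : Continuous (fun p : ℝ × X r k => C'.c (R'.T^[n] p.2)) := cT'.comp continuous_snd
  have e2 : Continuous (fun p : ℝ × X r k => C''.c (R''.T.symm^[n] p.2)) :=
    cT''.comp continuous_snd
  have e3 : Continuous (fun p : ℝ × X r k => (1 : ℝ) - p.1) :=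
    continuous_const.sub continuous_fst
  have e4 : Continuous (fun p : ℝ × X r k =>
      ((C'.c (R'.T^[n] p.2)).1, (1 - p.1) • (C'.c (R'.T^[n] p.2)).2)) :=
    e1.fst.prodMk (e3.smul e1.snd)
  have e5 : Continuous (fun p : ℝ × X r k =>
      ((1 - p.1) • (C''.c (R''.T.symm^[n] p.2)).1, (C''.c (R''.T.symm^[n] p.2)).2)) :=
    (e3.smul e2.fst).prodMk e2.snd
  have e6 := R'.cont_a.comp ((pt_cont_Count B').comp e4)
  have e7 := R''.cont_b.comp ((pt_cont_Count B'').comp e5)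
  exact e6.prodMk e7

private theorem sm_Count {W : Type} [NormedAddCommGroup W] [NormedSpace ℝ W] {t : ℝ}
    (ht : t ∈ Icc (0 : ℝ) 1) {w : W} {ρ : ℝ} (hw : ‖w‖ ≤ ρ) : ‖(1 - t) • w‖ ≤ ρ := by
  rw [norm_smul, Real.norm_of_nonneg (by linarith [ht.2])]
  have h5 := norm_nonneg w
  nlinarith [ht.1, ht.2]

omit [FiniteDimensional ℝ E₁] [FiniteDimensional ℝ E₂] [Nontrivial (E₁ × E₂)] in
private theorem psi_ne_Count {H : Hyp S F} {R' R'' : RP S F} {C' : Chart E₁ E₂ H R'}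
    {C'' : Chart E₁ E₂ H R''} {ρ' ρ'' κ' κ'' : ℝ} (B' : Box C' ρ' κ') (B'' : Box C'' ρ'' κ'')
    {n : ℕ} {t : ℝ} (ht : t ∈ Icc (0 : ℝ) 1) {x : X r k} (hx : x ∈ Om C' C'' ρ' ρ'' n)
    (hf : ‖(C'.c (R'.T^[n] x)).1‖ = ρ' ∨ ‖(C''.c (R''.T.symm^[n] x)).2‖ = ρ'') :
    psi_Count C' C'' ρ' ρ'' n t x ≠ 0 := by
  intro h0
  have h01 : R'.a (pt_Count C' ρ' ((C'.c (R'.T^[n] x)).1,
    (1 - t) • (C'.c (R'.T^[n] x)).2)) = 0 := congrArg Prod.fst h0
  have h02 : R''.b (pt_Count C'' ρ'' ((1 - t) • (C''.c (R''.T.symm^[n] x)).1,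
    (C''.c (R''.T.symm^[n] x)).2)) = 0 := congrArg Prod.snd h0
  rcases hf with h5 | h5
  · have h6 : ‖(((C'.c (R'.T^[n] x)).1, (1 - t) • (C'.c (R'.T^[n] x)).2) : E₁ × E₂)‖ ≤ ρ' := by
      rw [Prod.norm_def]
      exact max_le h5.le (sm_Count ht ((norm_snd_le _).trans hx.1))
    rw [pt_eq_Count B' h6] at h01
    exact B'.a_ne _ (by rw [c_pt_Count B' h6]; exact h6)
      (by rw [c_pt_Count B' h6]; exact h5) h01
  · have h6 : ‖(((1 - t) • (C''.c (R''.T.symm^[n] x)).1,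
        (C''.c (R''.T.symm^[n] x)).2) : E₁ × E₂)‖ ≤ ρ'' := by
      rw [Prod.norm_def]
      exact max_le (sm_Count ht ((norm_fst_le _).trans hx.2)) h5.le
    rw [pt_eq_Count B'' h6] at h02
    exact B''.b_ne _ (by rw [c_pt_Count B'' h6]; exact h6)
      (by rw [c_pt_Count B'' h6]; exact h5) h02

theorem count {H : Hyp S F} {R' R'' : RP S F} (C' : Chart E₁ E₂ H R') (C'' : Chart E₁ E₂ H R'')
    {ρ' ρ'' κ' κ'' : ℝ} (B' : Box C' ρ' κ') (B'' : Box C'' ρ'' κ'') (hc : Cross R' R'')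
    (hZ : IsCompact {x | R'.a x = 0 ∧ R''.b x = 0}) (C₀ : E r k ≃L[ℝ] E₁ × E₂)
    (Θ : (A r × A r) ≃L[ℝ] E₁ × E₂) {K : Set (X r k)} (hK : IsCompact K)
    (hZK : {x | R'.a x = 0 ∧ R''.b x = 0} ⊆ interior K) :
    ∃ (m : ℕ) (σ : ℤ), σ.natAbs = 1 ∧
      degX C₀ (fun x => Θ (R'.a x, R''.b x)) K = σ * m * dloc Θ C' C'' ρ' ρ'' ∧
      ((∃ x, R'.a x = 0 ∧ R''.b x = 0) → 0 < m) := by
  obtain ⟨n₁, h1⟩ := sign_G C' C'' B' B'' C₀
  obtain ⟨n₂, h2⟩ := zeros_in C' C'' B' B'' hZ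
  obtain ⟨n₃, h3⟩ := faces C' C'' B' B'' hc
  obtain ⟨n, hn1, hn2, hn3⟩ : ∃ n, n₁ ≤ n ∧ n₂ ≤ n ∧ n₃ ≤ n :=
    ⟨max n₁ (max n₂ n₃), by simp, by simp, by simp⟩
  obtain ⟨σ, hσ, hs⟩ := h1 n hn1
  replace h2 := h2 n hn2
  replace h3 := h3 n hn3
  set M := Om C' C'' ρ' ρ'' n with hM
  have hMc : IsCompact M := om_compact C' C'' B' B'' n
  have hMcl : IsClosed M := hMc.isClosed
  have cT' : Continuous (fun x => C'.c (R'.T^[n] x)) :=
    C'.cont.comp (R'.T.continuous.iterate n)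
  have cT'' : Continuous (fun x => C''.c (R''.T.symm^[n] x)) :=
    C''.cont.comp (R''.T.symm.continuous.iterate n)
  have hint : ∀ x, ‖C'.c (R'.T^[n] x)‖ < ρ' → ‖C''.c (R''.T.symm^[n] x)‖ < ρ'' →
      x ∈ interior M := by
    intro x hx1 hx2
    refine mem_interior.2 ⟨{x | ‖C'.c (R'.T^[n] x)‖ < ρ' ∧ ‖C''.c (R''.T.symm^[n] x)‖ < ρ''},
      fun y hy => ⟨hy.1.le, hy.2.le⟩, ?_, ⟨hx1, hx2⟩⟩
    exact (isOpen_lt cT'.norm continuous_const).inter (isOpen_lt cT''.norm continuous_const)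
  set N : Set (E₁ × E₂) := Metric.closedBall 0 ρ' ×ˢ Metric.closedBall 0 ρ'' with hN
  have hNint : interior N = Metric.ball 0 ρ' ×ˢ Metric.ball 0 ρ'' := by
    rw [hN, interior_prod_eq, interior_closedBall _ B'.pos.ne', interior_closedBall _ B''.pos.ne']
  have hNc : IsCompact N := (isCompact_closedBall 0 ρ').prod (isCompact_closedBall 0 ρ'')
  have hNv : Convex ℝ N := (convex_closedBall 0 ρ').prod (convex_closedBall 0 ρ'')
  have hGN : ∀ x ∈ M, G C' C'' n x ∈ N := by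
    intro x hx
    simp only [hN, mem_prod, mem_closedBall_zero_iff, G]
    exact ⟨(norm_fst_le _).trans hx.1, (norm_snd_le _).trans hx.2⟩
  have hfr : ∀ x ∈ frontier M, G C' C'' n x ∉ interior N := by
    intro x hx hGx
    rw [hNint] at hGx
    simp only [mem_prod, mem_ball_zero_iff, G] at hGx
    have hxM : x ∈ M := hMcl.frontier_subset hx
    have h4 := h3 x hxM
    exact hx.2 (hint x (by rw [Prod.norm_def]; exact max_lt hGx.1 h4.1)
      (by rw [Prod.norm_def]; exact max_lt h4.2 hGx.2))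
  have hface : ∀ x ∈ frontier M, ‖(C'.c (R'.T^[n] x)).1‖ = ρ' ∨
      ‖(C''.c (R''.T.symm^[n] x)).2‖ = ρ'' := by
    intro x hx
    by_contra h
    rw [not_or] at h
    have h5 := hGN x (hMcl.frontier_subset hx)
    refine hfr x hx ?_
    rw [hNint]
    simp only [hN, mem_prod, mem_closedBall_zero_iff, G] at h5
    simp only [mem_prod, mem_ball_zero_iff, G]
    exact ⟨lt_of_le_of_ne h5.1 h.1, lt_of_le_of_ne h5.2 h.2⟩
  have hatc : IsCompact (hatS C₀ M) := hatS_compact C₀ hMc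
  have hsub : hatS C₀ M ⊆ C₀ '' dom r k := by
    rintro _ ⟨x, -, rfl⟩
    exact ⟨toE x, Idx.toE_mem x, rfl⟩
  have hopen : IsOpen (C₀ '' dom r k) := isOpen_range C₀
  have hGs := (smooth_G C' C'' C₀ n).1
  have hfr2 : ∀ z ∈ frontier (hatS C₀ M), hat C₀ (G C' C'' n) z ∉ interior N := by
    rw [frontier_hatS C₀ hMc]
    rintro _ ⟨x, hx, rfl⟩
    show hat C₀ (G C' C'' n) (C₀ (toE x)) ∉ interior N
    rw [hat_apply]
    exact hfr x hx
  have hs2 : ∀ z ∈ hatS C₀ M, jacobianSign (hat C₀ (G C' C'' n)) z = σ := by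
    rintro _ ⟨x, hx, rfl⟩
    exact hs x hx
  have hMN2 : ∀ z ∈ hatS C₀ M, hat C₀ (G C' C'' n) z ∈ N := by
    rintro _ ⟨x, hx, rfl⟩
    show hat C₀ (G C' C'' n) (C₀ (toE x)) ∈ N
    rw [hat_apply]
    exact hGN x hx
  obtain ⟨m, hm⟩ := Deg.card_const hatc hopen hsub hGs hσ hs2 hNc hNv hfr2
  obtain ⟨hA1, hA2⟩ := Deg.deg_comp hatc hopen hsub hGs hσ hs2 hNc hNv hfr2 hMN2 hm
    (adm_Count Θ B' B'')
  -- the homotopy
  have hΨ : Continuous (fun p : ℝ × X r k => Θ (psi_Count C' C'' ρ' ρ'' n p.1 p.2)) :=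
    Θ.continuous.comp (psi_cont_Count B' B'' n)
  have hΨ0 : ∀ t ∈ Icc (0 : ℝ) 1, ∀ x ∈ frontier M,
      Θ (psi_Count C' C'' ρ' ρ'' n t x) ≠ 0 := fun t ht x hx h0 =>
    psi_ne_Count B' B'' ht (hMcl.frontier_subset hx) (hface x hx) ((Θ.map_eq_zero_iff).1 h0)
  have hhom : degX C₀ (fun x => Θ (psi_Count C' C'' ρ' ρ'' n 0 x)) M =
      degX C₀ (fun x => Θ (psi_Count C' C'' ρ' ρ'' n 1 x)) M :=
    degX_homotopy (Φ := fun t x => Θ (psi_Count C' C'' ρ' ρ'' n t x)) C₀ hΨ.continuousOn hMc hΨ0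
  have hΨu : Continuous (Function.uncurry fun t x => Θ (psi_Count C' C'' ρ' ρ'' n t x)) := hΨ
  have hΨt : ∀ t, Continuous (fun x => Θ (psi_Count C' C'' ρ' ρ'' n t x)) :=
    fun t => hΨu.uncurry_left t
  have h0mem : (0 : ℝ) ∈ Icc (0 : ℝ) 1 := ⟨le_refl _, zero_le_one⟩
  have h1mem : (1 : ℝ) ∈ Icc (0 : ℝ) 1 := ⟨zero_le_one, le_refl _⟩
  -- the time 1
  have ht1 : degX C₀ (fun x => Θ (psi_Count C' C'' ρ' ρ'' n 1 x)) M =
      σ * m * dloc Θ C' C'' ρ' ρ'' := by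
    refine Eq.trans ?_ hA2
    refine congr_Count (adm C₀ (hΨt 1) hMc (hΨ0 1 h1mem)) hA1 ?_
    rintro _ ⟨x, hx, rfl⟩
    show hat C₀ (fun x => Θ (psi_Count C' C'' ρ' ρ'' n 1 x)) (C₀ (toE x)) =
      Θ (psiU C' (hat C₀ (G C' C'' n) (C₀ (toE x))).1, psiS C'' (hat C₀ (G C' C'' n)
        (C₀ (toE x))).2)
    rw [hat_apply, hat_apply]
    have h6 : ‖(((C'.c (R'.T^[n] x)).1, 0) : E₁ × E₂)‖ ≤ ρ' := by
      rw [Prod.norm_def]
      refine max_le ?_ (by simpa using B'.pos.le)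
      exact (norm_fst_le (C'.c (R'.T^[n] x))).trans hx.1
    have h7 : ‖((0, (C''.c (R''.T.symm^[n] x)).2) : E₁ × E₂)‖ ≤ ρ'' := by
      rw [Prod.norm_def]
      refine max_le (by simpa using B''.pos.le) ?_
      exact (norm_snd_le (C''.c (R''.T.symm^[n] x))).trans hx.2
    have h8 : psi_Count C' C'' ρ' ρ'' n 1 x =
        (psiU C' (G C' C'' n x).1, psiS C'' (G C' C'' n x).2) := by
      refine Prod.ext ?_ ?_
      · show R'.a (pt_Count C' ρ' ((C'.c (R'.T^[n] x)).1, (1 - 1 : ℝ) • (C'.c (R'.T^[n] x)).2)) =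
          R'.a (ofE (toE R'.q + C'.C.symm ((C'.c (R'.T^[n] x)).1, 0)))
        rw [sub_self, zero_smul, pt_eq_Count B' h6]
      · show R''.b (pt_Count C'' ρ'' ((1 - 1 : ℝ) • (C''.c (R''.T.symm^[n] x)).1,
          (C''.c (R''.T.symm^[n] x)).2)) =
          R''.b (ofE (toE R''.q + C''.C.symm (0, (C''.c (R''.T.symm^[n] x)).2)))
        rw [sub_self, zero_smul, pt_eq_Count B'' h7]
    rw [h8]
  -- the time 0
  obtain ⟨Λ₁, hΛ₁⟩ := diag_Count R'.sa R'.sa_one n
  obtain ⟨Λ₂, hΛ₂⟩ := diag_Count R''.sb R''.sb_one n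
  let Λ : (E₁ × E₂) ≃L[ℝ] (E₁ × E₂) := (Θ.symm.trans (Λ₁.prodCongr Λ₂)).trans Θ
  have hab : Continuous (fun x => Θ (R'.a x, R''.b x)) :=
    Θ.continuous.comp (R'.cont_a.prodMk R''.cont_b)
  have habM : ∀ x, Θ (R'.a x, R''.b x) = 0 → x ∈ interior M := by
    intro x hx
    have hx' := (Θ.map_eq_zero_iff).1 hx
    have h5 : R'.a x = 0 := congrArg Prod.fst hx'
    have h6 : R''.b x = 0 := congrArg Prod.snd hx'
    obtain ⟨h7, h8⟩ := h2 x h5 h6
    exact hint x h7 h8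
  have hadm : Deg.Adm (hat C₀ (fun x => Θ (R'.a x, R''.b x))) (hatS C₀ M) :=
    adm C₀ hab hMc fun x hx h0 => hx.2 (habM x h0)
  obtain ⟨hL1, hL2⟩ := Deg.deg_comp_left Λ hadm
  have hsg := Deg.natAbs_sign_det Λ
  set s : ℤ := (SignType.sign (Λ : (E₁ × E₂) →L[ℝ] (E₁ × E₂)).det : ℤ) with hsdef
  have hsgn : ∀ (s : A r), (∀ i, s i = 1 ∨ s i = -1) → ∀ i, s i ^ n ≠ 0 := by
    intro s hs i
    refine pow_ne_zero _ ?_
    rcases hs i with h | h <;> rw [h] <;> norm_num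
  have hcy : Continuous (fun x => (R'.a (R'.T^[n] x), R''.b (R''.T.symm^[n] x))) :=
    (R'.cont_a.comp (R'.T.continuous.iterate n)).prodMk
      (R''.cont_b.comp (R''.T.symm.continuous.iterate n))
  have hcx : Continuous (fun x => (Λ₁.prodCongr Λ₂) (R'.a x, R''.b x)) :=
    (Λ₁.prodCongr Λ₂).continuous.comp (R'.cont_a.prodMk R''.cont_b)
  have hz0 : ∀ t ∈ Icc (0 : ℝ) 1, ∀ x, Θ ((1 - t) • (R'.a (R'.T^[n] x), R''.b (R''.T.symm^[n] x)) +
      t • (Λ₁.prodCongr Λ₂) (R'.a x, R''.b x)) = 0 → Θ (R'.a x, R''.b x) = 0 := by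
    intro t ht x h0
    have h5 := (Θ.map_eq_zero_iff).1 h0
    have h6 : (1 - t) • R'.a (R'.T^[n] x) + t • Λ₁ (R'.a x) = 0 := congrArg Prod.fst h5
    have h7 : (1 - t) • R''.b (R''.T.symm^[n] x) + t • Λ₂ (R''.b x) = 0 := congrArg Prod.snd h5
    have hpos : ∀ c : ℝ, 0 < c → 0 < (1 - t) * c + t := by
      intro c hc
      rcases eq_or_lt_of_le ht.1 with h | h
      · rw [← h]; linarith
      · have h9 : 0 ≤ (1 - t) * c := mul_nonneg (by linarith [ht.2]) hc.le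
        linarith
    have h8 : R'.a x = 0 := by
      funext i
      obtain ⟨c, hc, h9⟩ := R'.a_iter n x i
      have h10 := congrFun h6 i
      rw [Pi.add_apply, Pi.smul_apply, Pi.smul_apply, smul_eq_mul, smul_eq_mul, h9, hΛ₁,
        Pi.zero_apply] at h10
      have h11 : ((1 - t) * c + t) * (R'.sa i ^ n * R'.a x i) = 0 := by linarith
      exact (mul_eq_zero.1 ((mul_eq_zero.1 h11).resolve_left (hpos c hc).ne')).resolve_left
        (hsgn R'.sa R'.sa_one i)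
    have h12 : R''.b x = 0 := by
      funext i
      obtain ⟨c, hc, h9⟩ := R''.b_iter n (R''.T.symm^[n] x) i
      rw [R''.iter_symm] at h9
      have h10 := congrFun h7 i
      rw [Pi.add_apply, Pi.smul_apply, Pi.smul_apply, smul_eq_mul, smul_eq_mul, hΛ₂,
        Pi.zero_apply, h9] at h10
      have hsq : R''.sb i ^ n * R''.sb i ^ n = 1 := by
        rcases R''.sb_one i with h | h
        · rw [h, one_pow, one_mul]
        · rw [h, ← mul_pow]
          norm_num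
      have h11 : ((1 - t) + t * c) * R''.b (R''.T.symm^[n] x) i = 0 := by
        have h13 : R''.sb i ^ n * (c * (R''.sb i ^ n * R''.b (R''.T.symm^[n] x) i)) =
            c * R''.b (R''.T.symm^[n] x) i := by
          calc _ = c * (R''.sb i ^ n * R''.sb i ^ n) * R''.b (R''.T.symm^[n] x) i := by ring
            _ = _ := by rw [hsq, mul_one]
        rw [h13] at h10
        linarith
      have h14 : 0 < (1 - t) + t * c := by
        rcases eq_or_lt_of_le ht.2 with h | h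
        · rw [h]; linarith
        · have h15 : 0 ≤ t * c := mul_nonneg ht.1 hc.le
          linarith
      rw [h9, (mul_eq_zero.1 h11).resolve_left h14.ne', mul_zero, mul_zero, Pi.zero_apply]
    rw [h8, h12]
    exact Θ.map_zero
  have hhom2 : degX C₀ (fun x => Θ (R'.a (R'.T^[n] x), R''.b (R''.T.symm^[n] x))) M =
      degX C₀ (fun x => Θ ((Λ₁.prodCongr Λ₂) (R'.a x, R''.b x))) M := by
    have h5 := degX_homotopy (Φ := fun t x =>
      Θ ((1 - t) • (R'.a (R'.T^[n] x), R''.b (R''.T.symm^[n] x)) +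
      t • (Λ₁.prodCongr Λ₂) (R'.a x, R''.b x))) C₀ (Continuous.continuousOn ?_) hMc
      fun t ht x hx h0 => hx.2 (habM x (hz0 t ht x h0))
    · simpa only [sub_zero, sub_self, one_smul, zero_smul, add_zero, zero_add] using h5
    · refine Θ.continuous.comp ?_
      exact ((continuous_const.sub continuous_fst).smul (hcy.comp continuous_snd)).add
        (continuous_fst.smul (hcx.comp continuous_snd))
  have ht00 : degX C₀ (fun x => Θ (psi_Count C' C'' ρ' ρ'' n 0 x)) M =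
      degX C₀ (fun x => Θ (R'.a (R'.T^[n] x), R''.b (R''.T.symm^[n] x))) M := by
    refine congr_Count (adm C₀ (hΨt 0) hMc (hΨ0 0 h0mem))
      (adm C₀ (Θ.continuous.comp hcy) hMc fun x hx h0 => ?_) ?_
    · refine hx.2 (habM x (hz0 0 h0mem x ?_))
      rw [sub_zero, one_smul, zero_smul, add_zero]
      exact h0
    rintro _ ⟨x, hx, rfl⟩
    show hat C₀ (fun x => Θ (psi_Count C' C'' ρ' ρ'' n 0 x)) (C₀ (toE x)) =
      hat C₀ (fun x => Θ (R'.a (R'.T^[n] x), R''.b (R''.T.symm^[n] x))) (C₀ (toE x))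
    rw [hat_apply, hat_apply]
    have h8 : psi_Count C' C'' ρ' ρ'' n 0 x =
        (R'.a (R'.T^[n] x), R''.b (R''.T.symm^[n] x)) := by
      refine Prod.ext ?_ ?_
      · show R'.a (pt_Count C' ρ' ((C'.c (R'.T^[n] x)).1, (1 - 0 : ℝ) • (C'.c (R'.T^[n] x)).2)) =
          R'.a (R'.T^[n] x)
        rw [sub_zero, one_smul, Prod.mk.eta, pt_eq_Count B' hx.1, pt_c_Count]
      · show R''.b (pt_Count C'' ρ'' ((1 - 0 : ℝ) • (C''.c (R''.T.symm^[n] x)).1,
          (C''.c (R''.T.symm^[n] x)).2)) = R''.b (R''.T.symm^[n] x)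
        rw [sub_zero, one_smul, Prod.mk.eta, pt_eq_Count B'' hx.2, pt_c_Count]
    rw [h8]
  have ht01 : degX C₀ (fun x => Θ ((Λ₁.prodCongr Λ₂) (R'.a x, R''.b x))) M =
      s * degX C₀ (fun x => Θ (R'.a x, R''.b x)) M := by
    refine Eq.trans ?_ hL2
    have h5 : hat C₀ (fun x => Θ ((Λ₁.prodCongr Λ₂) (R'.a x, R''.b x))) =
        Λ ∘ hat C₀ (fun x => Θ (R'.a x, R''.b x)) := by
      funext z
      show Θ ((Λ₁.prodCongr Λ₂) (R'.a (ofE (C₀.symm z)), R''.b (ofE (C₀.symm z)))) =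
        Θ ((Λ₁.prodCongr Λ₂) (Θ.symm (Θ (R'.a (ofE (C₀.symm z)), R''.b (ofE (C₀.symm z))))))
      rw [ContinuousLinearEquiv.symm_apply_apply]
    rw [degX, h5]
  have ht0 : degX C₀ (fun x => Θ (psi_Count C' C'' ρ' ρ'' n 0 x)) M =
      s * degX C₀ (fun x => Θ (R'.a x, R''.b x)) M := by
    rw [ht00, hhom2, ht01]
  have hex : degX C₀ (fun x => Θ (R'.a x, R''.b x)) K =
      degX C₀ (fun x => Θ (R'.a x, R''.b x)) M := by
    refine degX_excision C₀ hab hK hMc ?_ ?_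
    · intro x h0 _
      have h5 := (Θ.map_eq_zero_iff).1 h0
      exact ⟨hZK ⟨congrArg Prod.fst h5, congrArg Prod.snd h5⟩, habM x h0⟩
    · intro x h0 _
      have h5 := (Θ.map_eq_zero_iff).1 h0
      exact ⟨hZK ⟨congrArg Prod.fst h5, congrArg Prod.snd h5⟩, habM x h0⟩
  have hss : s * s = 1 := by
    rcases Int.natAbs_eq_iff.1 hsg with h5 | h5 <;> rw [h5] <;> norm_num
  refine ⟨m, s * σ, ?_, ?_, ?_⟩
  · rw [Int.natAbs_mul, hsg, hσ]
  · rw [hex]
    have h5 : s * degX C₀ (fun x => Θ (R'.a x, R''.b x)) M =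
        σ * m * dloc Θ C' C'' ρ' ρ'' := by
      rw [← ht0, hhom, ht1]
    calc degX C₀ (fun x => Θ (R'.a x, R''.b x)) M
        = (s * s) * degX C₀ (fun x => Θ (R'.a x, R''.b x)) M := by rw [hss, one_mul]
      _ = s * (s * degX C₀ (fun x => Θ (R'.a x, R''.b x)) M) := by ring
      _ = s * σ * m * dloc Θ C' C'' ρ' ρ'' := by rw [h5]; ring
  · rintro ⟨x, hx1, hx2⟩
    obtain ⟨h5, h6⟩ := h2 x hx1 hx2
    have hxM : x ∈ M := ⟨h5.le, h6.le⟩
    have h7 : G C' C'' n x ∈ interior N := by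
      rw [hNint]
      simp only [mem_prod, mem_ball_zero_iff, G]
      exact ⟨(norm_fst_le _).trans_lt h5, (norm_snd_le _).trans_lt h6⟩
    obtain ⟨h8, h9⟩ := hm _ h7
    rw [← h9, Set.ncard_pos h8]
    refine ⟨C₀ (toE x), ⟨x, hxM, rfl⟩, ?_⟩
    rw [mem_preimage, mem_singleton_iff, hat_apply]

end Pool.Agent.ANO3.Conn
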