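import Pool.Agent.ANO3.Deg.Cover
import Pool.Agent.ANO3.Deg.Lin
import Pool.Agent.ANO3.Deg.Prod
import Pool.Agent.ANO2.Idx.Ano

/-!
# ANO3, module Conn: connections between regular points, definitions

Section 7 of `/team-store/ANO3_Blueprint.md`.  A regular point `R : RP S F` is a fixed point
`q` of a lift `T = g ∘ F ^ M` with two continuous functions `a : X → ℝ^r` (zero exactly on the
stable set of `q`) and `b : X → ℝ^r` (zero exactly on the unstable set); `T` multiplies the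
components of `a` (of `b`) by functions of constant sign, and expands `a` and contracts `b`.  We
count the common zeros of `R'.a` and `R''.b`.  The linear coordinates of the vector space
`E r k ⊇ X r k` are in `E₁ × E₂` (`dim E₁ = dim E^u`, `dim E₂ = dim E^s`); at the end it turns out
that the dimensions of `E₁` and `E₂` are `r`.
-/

set_option autoImplicit false

open Set Filter Topology

namespace Pool.Agent.ANO3.Conn

open Pool.Agent.ANO Pool.Agent.ANO2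

variable {r k : ℕ} {S : Fin r → ClosedSurface} {F : X r k ≃ₜ X r k}

/-- The data of an Anosov lift. -/
structure Hyp (S : Fin r → ClosedSurface) (F : X r k ≃ₜ X r k) where
  lift : IsAnosovLift S F
  P : X r k → (E r k →L[ℝ] E r k)
  cont : Continuous P
  proj : ∀ p, P p ∘L P p = P p
  deck : ∀ g, IsDeck S k g → ∀ p, P (g p) ∘L tmap g p = tmap g p ∘L P p
  comm : ∀ p, P (F p) ∘L tmap F p = tmap F p ∘L P p
  C : ℝ
  μ : ℝ
  C_pos : 0 < C
  μ_pos : 0 < μ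
  μ_lt : μ < 1
  est : ∀ (n : ℕ) (p : X r k) (v : E r k),
    (P p v = 0 → tnorm ((F ^ n) p) (tmap (F ^ n : X r k ≃ₜ X r k) p v) ≤ C * μ ^ n * tnorm p v) ∧
    (P p v = v → tnorm ((F ^ n).symm p) (tmap (F ^ n : X r k ≃ₜ X r k).symm p v) ≤
      C * μ ^ n * tnorm p v)

theorem exists_hyp (h : IsAnosovLift S F) : Nonempty (Hyp S F) := by
  have h0 := h
  obtain ⟨-, -, -, -, P, h1, h2, h3, h4, C, μ, h5, h6, h7, h8⟩ := h
  exact ⟨⟨h0, P, h1, h2, h3, h4, C, μ, h5, h6, h7, h8⟩⟩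

/-- the space of the values of `a` and `b` -/
abbrev A (r : ℕ) : Type := Fin r → ℝ

variable (S F) in
/-- A regular point: a fixed point `q` of a lift `T` of a power of `F`, with the functions `a`
(unstable coordinates) and `b` (stable coordinates). -/
structure RP where
  M : ℕ
  M_pos : 0 < M
  g : X r k → X r k
  deck : IsDeck S k g
  T : X r k ≃ₜ X r k
  T_eq : ∀ p, T p = g ((F ^ M) p)
  q : X r k
  fix : T q = q
  a : X r k → A r
  b : X r k → A r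
  cont_a : Continuous a
  cont_b : Continuous b
  sa : A r
  sb : A r
  sa_one : ∀ i, sa i = 1 ∨ sa i = -1
  sb_one : ∀ i, sb i = 1 ∨ sb i = -1
  L : ℝ
  one_lt : 1 < L
  grow_a : ∀ x, L * ‖a x‖ ≤ ‖a (T x)‖
  grow_b : ∀ x, L * ‖b (T x)‖ ≤ ‖b x‖
  scale_a : ∀ x i, ∃ c : ℝ, 0 < c ∧ a (T x) i = c * (sa i * a x i)
  scale_b : ∀ x i, ∃ c : ℝ, 0 < c ∧ b (T x) i = c * (sb i * b x i)
  uniq : ∀ x, a x = 0 → b x = 0 → x = q
  bdd_a : ∀ x, a x = 0 → ∃ K, IsCompact K ∧ ∀ n : ℕ, T^[n] x ∈ K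
  bdd_b : ∀ x, b x = 0 → ∃ K, IsCompact K ∧ ∀ n : ℕ, T.symm^[n] x ∈ K

namespace RP

theorem a_q (R : RP S F) : R.a R.q = 0 := by
  have h2 := R.grow_a R.q
  rw [R.fix] at h2
  have h3 := R.one_lt
  have h4 := norm_nonneg (R.a R.q)
  rw [← norm_eq_zero]
  nlinarith

theorem b_q (R : RP S F) : R.b R.q = 0 := by
  have h2 := R.grow_b R.q
  rw [R.fix] at h2
  have h3 := R.one_lt
  have h4 := norm_nonneg (R.b R.q)
  rw [← norm_eq_zero]
  nlinarith

private theorem sgn_ne {s : ℝ} (h : s = 1 ∨ s = -1) : s ≠ 0 := by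
  rcases h with h | h <;> rw [h] <;> norm_num

theorem a_T_eq_zero (R : RP S F) (x : X r k) : R.a (R.T x) = 0 ↔ R.a x = 0 := by
  constructor
  · intro h
    funext i
    obtain ⟨c, hc, h1⟩ := R.scale_a x i
    rw [h, Pi.zero_apply] at h1
    have h2 := (mul_eq_zero.1 h1.symm).resolve_left hc.ne'
    exact (mul_eq_zero.1 h2).resolve_left (sgn_ne (R.sa_one i))
  · intro h
    funext i
    obtain ⟨c, hc, h1⟩ := R.scale_a x i
    rw [h1, h, Pi.zero_apply, mul_zero, mul_zero]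

theorem b_T_eq_zero (R : RP S F) (x : X r k) : R.b (R.T x) = 0 ↔ R.b x = 0 := by
  constructor
  · intro h
    funext i
    obtain ⟨c, hc, h1⟩ := R.scale_b x i
    rw [h, Pi.zero_apply] at h1
    have h2 := (mul_eq_zero.1 h1.symm).resolve_left hc.ne'
    exact (mul_eq_zero.1 h2).resolve_left (sgn_ne (R.sb_one i))
  · intro h
    funext i
    obtain ⟨c, hc, h1⟩ := R.scale_b x i
    rw [h1, h, Pi.zero_apply, mul_zero, mul_zero]

theorem a_iter_eq_zero (R : RP S F) (n : ℕ) (x : X r k) : R.a (R.T^[n] x) = 0 ↔ R.a x = 0 := by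
  induction n with
  | zero => rfl
  | succ n ih => rw [Function.iterate_succ_apply', R.a_T_eq_zero, ih]

theorem b_iter_eq_zero (R : RP S F) (n : ℕ) (x : X r k) : R.b (R.T^[n] x) = 0 ↔ R.b x = 0 := by
  induction n with
  | zero => rfl
  | succ n ih => rw [Function.iterate_succ_apply', R.b_T_eq_zero, ih]

theorem iter_symm (R : RP S F) (n : ℕ) (x : X r k) : R.T^[n] (R.T.symm^[n] x) = x := by
  induction n with
  | zero => rfl
  | succ n ih =>
    rw [Function.iterate_succ_apply, Function.iterate_succ_apply' R.T.symm,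
      R.T.apply_symm_apply, ih]

theorem symm_iter (R : RP S F) (n : ℕ) (x : X r k) : R.T.symm^[n] (R.T^[n] x) = x := by
  induction n with
  | zero => rfl
  | succ n ih =>
    rw [Function.iterate_succ_apply, Function.iterate_succ_apply' R.T,
      R.T.symm_apply_apply, ih]

theorem a_iter (R : RP S F) (n : ℕ) (x : X r k) (i : Fin r) :
    ∃ c : ℝ, 0 < c ∧ R.a (R.T^[n] x) i = c * (R.sa i ^ n * R.a x i) := by
  induction n with
  | zero => exact ⟨1, one_pos, by simp⟩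
  | succ n ih =>
    obtain ⟨c, hc, h1⟩ := ih
    obtain ⟨c', hc', h2⟩ := R.scale_a (R.T^[n] x) i
    refine ⟨c' * c, mul_pos hc' hc, ?_⟩
    rw [Function.iterate_succ_apply', h2, h1, pow_succ]
    ring

theorem b_iter (R : RP S F) (n : ℕ) (x : X r k) (i : Fin r) :
    ∃ c : ℝ, 0 < c ∧ R.b (R.T^[n] x) i = c * (R.sb i ^ n * R.b x i) := by
  induction n with
  | zero => exact ⟨1, one_pos, by simp⟩
  | succ n ih =>
    obtain ⟨c, hc, h1⟩ := ih
    obtain ⟨c', hc', h2⟩ := R.scale_b (R.T^[n] x) i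
    refine ⟨c' * c, mul_pos hc' hc, ?_⟩
    rw [Function.iterate_succ_apply', h2, h1, pow_succ]
    ring

theorem norm_a_iter (R : RP S F) (n : ℕ) (x : X r k) :
    R.L ^ n * ‖R.a x‖ ≤ ‖R.a (R.T^[n] x)‖ := by
  induction n with
  | zero => simp
  | succ n ih =>
    rw [Function.iterate_succ_apply']
    refine le_trans ?_ (R.grow_a _)
    rw [pow_succ']
    have h0 : 0 < R.L := lt_trans one_pos R.one_lt
    nlinarith

theorem norm_b_iter (R : RP S F) (n : ℕ) (x : X r k) :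
    R.L ^ n * ‖R.b (R.T^[n] x)‖ ≤ ‖R.b x‖ := by
  induction n with
  | zero => simp
  | succ n ih =>
    rw [Function.iterate_succ_apply']
    refine le_trans ?_ ih
    have h0 : 0 < R.L := lt_trans one_pos R.one_lt
    have h1 := R.grow_b (R.T^[n] x)
    have h2 : 0 < R.L ^ n := pow_pos h0 n
    rw [pow_succ]
    nlinarith

end RP

variable {E₁ E₂ : Type} [NormedAddCommGroup E₁] [NormedSpace ℝ E₁]
  [NormedAddCommGroup E₂] [NormedSpace ℝ E₂]

variable (E₁ E₂) in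
/-- The chart of a regular point: linear coordinates in which `E^u` and `E^s` at `q` are the two
factors and `T` is strongly hyperbolic at `q`. -/
structure Chart (H : Hyp S F) (R : RP S F) where
  C : E r k ≃L[ℝ] E₁ × E₂
  hC : ∀ v, C (H.P R.q v) = ((C v).1, 0)
  step_u : ∀ v, 8 * ‖(C v).1‖ ≤ ‖(C (tmap R.T R.q v)).1‖
  step_s : ∀ v, 8 * ‖(C (tmap R.T R.q v)).2‖ ≤ ‖(C v).2‖

/-- The coordinates centered at `q`. -/
noncomputable def Chart.c {H : Hyp S F} {R : RP S F} (Ch : Chart E₁ E₂ H R) (x : X r k) :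
    E₁ × E₂ :=
  Ch.C (toE x - toE R.q)

/-- The conditions on the radius `ρ` of the box at `q`; `κ` is a constant. -/
structure Box {H : Hyp S F} {R : RP S F} (Ch : Chart E₁ E₂ H R) (ρ κ : ℝ) : Prop where
  pos : 0 < ρ
  compact : IsCompact {x | ‖Ch.c x‖ ≤ ρ}
  surj : ∀ v, ‖v‖ ≤ ρ → ∃ x, Ch.c x = v
  a_ne : ∀ x, ‖Ch.c x‖ ≤ ρ → ‖(Ch.c x).1‖ = ρ → R.a x ≠ 0
  b_ne : ∀ x, ‖Ch.c x‖ ≤ ρ → ‖(Ch.c x).2‖ = ρ → R.b x ≠ 0
  a_inv : ∀ x, ‖Ch.c x‖ ≤ ρ → R.a x = 0 → ‖Ch.c (R.T x)‖ < ρ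
  b_inv : ∀ x, ‖Ch.c x‖ ≤ ρ → R.b x = 0 → ‖Ch.c (R.T.symm x)‖ < ρ
  inj_u : ∀ x, ‖Ch.c x‖ ≤ ρ → ∀ v, H.P x v = v → ‖v‖ ≤ κ * ‖(Ch.C v).1‖
  inj_s : ∀ x, ‖Ch.c x‖ ≤ ρ → ∀ v, H.P x v = 0 → ‖v‖ ≤ κ * ‖(Ch.C v).2‖

/-- The bounds for a pair of regular points. -/
structure Cross (R' R'' : RP S F) : Prop where
  b : ∀ K, IsCompact K → ∃ C : ℝ, ∀ y ∈ K, ∀ n : ℕ, ‖R'.b (R''.T^[n] y)‖ ≤ C
  a : ∀ K, IsCompact K → ∃ C : ℝ, ∀ y ∈ K, ∀ n : ℕ, ‖R''.a (R'.T.symm^[n] y)‖ ≤ C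

/-- The map `G_n`. -/
noncomputable def G {H : Hyp S F} {R' R'' : RP S F} (C' : Chart E₁ E₂ H R')
    (C'' : Chart E₁ E₂ H R'') (n : ℕ) (x : X r k) : E₁ × E₂ :=
  ((C'.c (R'.T^[n] x)).1, (C''.c (R''.T.symm^[n] x)).2)

/-- The domain of `G_n`. -/
def Om {H : Hyp S F} {R' R'' : RP S F} (C' : Chart E₁ E₂ H R') (C'' : Chart E₁ E₂ H R'')
    (ρ' ρ'' : ℝ) (n : ℕ) : Set (X r k) :=
  {x | ‖C'.c (R'.T^[n] x)‖ ≤ ρ' ∧ ‖C''.c (R''.T.symm^[n] x)‖ ≤ ρ''}

/-- A function on `X r k` in the linear coordinates `C₀`. -/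
noncomputable def hat (C₀ : E r k ≃L[ℝ] E₁ × E₂) (Φ : X r k → E₁ × E₂) (z : E₁ × E₂) : E₁ × E₂ :=
  Φ (ofE (C₀.symm z))

/-- A subset of `X r k` in the linear coordinates `C₀`. -/
def hatS (C₀ : E r k ≃L[ℝ] E₁ × E₂) (K : Set (X r k)) : Set (E₁ × E₂) :=
  (fun x => C₀ (toE x)) '' K

variable [FiniteDimensional ℝ E₁] [FiniteDimensional ℝ E₂]

/-- The degree of a function on a compact set. -/
noncomputable def degX (C₀ : E r k ≃L[ℝ] E₁ × E₂) (Φ : X r k → E₁ × E₂) (K : Set (X r k)) : ℤ :=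
  Deg.deg (hat C₀ Φ) (hatS C₀ K)

/-- the function `a'` on the unstable slice at `q'` -/
noncomputable def psiU {H : Hyp S F} {R : RP S F} (Ch : Chart E₁ E₂ H R) (v : E₁) : A r :=
  R.a (ofE (toE R.q + Ch.C.symm (v, 0)))

/-- the function `b''` on the stable slice at `q''` -/
noncomputable def psiS {H : Hyp S F} {R : RP S F} (Ch : Chart E₁ E₂ H R) (w : E₂) : A r :=
  R.b (ofE (toE R.q + Ch.C.symm (0, w)))

/-- the local degree -/
noncomputable def dloc (Θ : (A r × A r) ≃L[ℝ] E₁ × E₂) {H : Hyp S F} {R' R'' : RP S F}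
    (C' : Chart E₁ E₂ H R') (C'' : Chart E₁ E₂ H R'') (ρ' ρ'' : ℝ) : ℤ :=
  Deg.deg (fun z : E₁ × E₂ => Θ (psiU C' z.1, psiS C'' z.2))
    (Metric.closedBall (0 : E₁) ρ' ×ˢ Metric.closedBall (0 : E₂) ρ'')

end Pool.Agent.ANO3.Conn
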